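import Pool.Agent.Q327.SN.Nilp

/-!
Supernilpotent semigroups: common multiples and the closure lemma.
-/

set_option autoImplicit false

namespace Pool.Agent.Q327.SN

/-- the algebra of matrices generated by matrices that depend on one coordinate only and have
entries in `I` -/
def MatI {M : Type*} [Monoid M] (I : Set M) (d : ℕ) : Subsemigroup (Idx d → M) :=
  Subsemigroup.closure {c | ∃ (o : Option (Fin d)), ∃ a ∈ I, ∃ b ∈ I,
    c = fun x => if coord x o then b else a}

/-- a monoid with an ideal that satisfies the term condition of supernilpotence -/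
structure Dat (M : Type*) [Monoid M] (d : ℕ) where
  I : Set M
  left : ∀ x ∈ I, ∀ y : M, y * x ∈ I
  right : ∀ x ∈ I, ∀ y : M, x * y ∈ I
  o : M
  ho : o ∈ I
  term : ∀ c ∈ MatI I d, (∀ ε, ε ≠ (fun _ => true) → c (ε, false) = c (ε, true)) →
    c (fun _ => true, false) = c (fun _ => true, true)

/-- products of at least `k` elements of `I` -/
def P {M : Type*} [Monoid M] (I : Set M) : ℕ → Set M
  | 0 => Set.univ
  | k + 1 => {z | ∃ a ∈ I, ∃ p ∈ P I k, z = a * p}

section

variable {M : Type*} [Monoid M] {d : ℕ} (E : Dat M d)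

namespace Dat

theorem P_mul_right {k : ℕ} {z : M} (hz : z ∈ P E.I k) (m : M) : z * m ∈ P E.I k := by
  induction k generalizing z with
  | zero => trivial
  | succ k ih =>
    obtain ⟨a, ha, p, hp, rfl⟩ := hz
    exact ⟨a, ha, p * m, ih hp, by rw [mul_assoc]⟩

theorem P_mul_left {k : ℕ} {z : M} (hz : z ∈ P E.I k) (m : M) : m * z ∈ P E.I k := by
  cases k with
  | zero => trivial
  | succ k =>
    obtain ⟨a, ha, p, hp, rfl⟩ := hz
    exact ⟨m * a, E.left a ha m, p, hp, by rw [mul_assoc]⟩

theorem P_succ_le {k : ℕ} {z : M} (hz : z ∈ P E.I (k + 1)) : z ∈ P E.I k := by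
  obtain ⟨a, _, p, hp, rfl⟩ := hz
  exact E.P_mul_left hp a

theorem P_anti {k l : ℕ} (h : k ≤ l) {z : M} (hz : z ∈ P E.I l) : z ∈ P E.I k := by
  induction h with
  | refl => exact hz
  | step _ ih => exact ih (E.P_succ_le hz)

theorem P_mul {k l : ℕ} {z w : M} (hz : z ∈ P E.I k) (hw : w ∈ P E.I l) :
    z * w ∈ P E.I (k + l) := by
  induction k generalizing z with
  | zero => rw [Nat.zero_add]; exact E.P_mul_left hw z
  | succ k ih =>
    obtain ⟨a, ha, p, hp, rfl⟩ := hz
    rw [Nat.add_right_comm]
    exact ⟨a, ha, p * w, ih hp, by rw [mul_assoc]⟩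

theorem P_split {k l : ℕ} {z : M} (hz : z ∈ P E.I (k + l)) :
    ∃ u ∈ P E.I k, ∃ v ∈ P E.I l, z = u * v := by
  induction k generalizing z with
  | zero => exact ⟨1, trivial, z, by rwa [Nat.zero_add] at hz, by rw [one_mul]⟩
  | succ k ih =>
    rw [Nat.add_right_comm] at hz
    obtain ⟨a, ha, p, hp, rfl⟩ := hz
    obtain ⟨u, hu, v, hv, rfl⟩ := ih hp
    exact ⟨a * u, ⟨a, ha, u, hu, rfl⟩, v, hv, by rw [mul_assoc]⟩

theorem mem_P_one {z : M} : z ∈ P E.I 1 ↔ z ∈ E.I := by
  constructor
  · rintro ⟨a, ha, p, -, rfl⟩
    exact E.right a ha p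
  · intro h
    exact ⟨z, h, 1, trivial, by rw [mul_one]⟩

theorem P_pos {k : ℕ} (hk : 1 ≤ k) {z : M} (hz : z ∈ P E.I k) : z ∈ E.I :=
  E.mem_P_one.mp (E.P_anti hk hz)

theorem exists_P (k : ℕ) : ∃ z, z ∈ P E.I k := by
  induction k with
  | zero => exact ⟨1, trivial⟩
  | succ k ih =>
    obtain ⟨z, hz⟩ := ih
    exact ⟨E.o * z, E.o, E.ho, z, hz, rfl⟩

theorem dirI_mem (o : Option (Fin d)) {a b : M} (ha : a ∈ E.I) (hb : b ∈ E.I) :
    (fun x : Idx d => if coord x o then b else a) ∈ MatI E.I d :=
  Subsemigroup.subset_closure ⟨o, a, ha, b, hb, rfl⟩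

theorem const_mem {a : M} (ha : a ∈ E.I) : (fun _ : Idx d => a) ∈ MatI E.I d := by
  have := E.dirI_mem none ha ha
  simpa using this

theorem pad_mem (X Y T : M) (n : ℕ) : ∀ (p : M), p ∈ P E.I n → ∀ q : M, T = q * p →
    ∀ L : List (Slot d), L.length = n → ∀ s ∈ E.I,
      (fun x => p * ev (X * T) (Y * T) L x * s) ∈ MatI E.I d := by
  induction n with
  | zero =>
    intro p _ q _ L hL s hs
    rw [List.length_eq_zero_iff] at hL
    subst hL
    have : (fun x : Idx d => p * ev (X * T) (Y * T) [] x * s) = fun _ => p * s := by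
      funext x
      rw [ev_nil, mul_one]
    rw [this]
    exact E.const_mem (E.left s hs p)
  | succ n ih =>
    rintro p ⟨k, hk, p', hp', rfl⟩ q hq L hL s hs
    match L, hL with
    | σ :: L', hL =>
      have hL' : L'.length = n := by simpa using hL
      have hq' : T = (q * k) * p' := by rw [hq, mul_assoc]
      have h1 := ih p' hp' (q * k) hq' L' hL' s hs
      obtain ⟨o, act, l⟩ := σ
      have hI : (k * p') * (if l then Y else X) * (q * k) ∈ E.I :=
        E.left _ (E.left k hk q) _
      have h2 : (fun x : Idx d => if coord x o = act then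
          (k * p') * (if l then Y else X) * (q * k) else k) ∈ MatI E.I d := by
        cases act
        · have := E.dirI_mem o hI hk
          convert this using 2 with x
          cases coord x o <;> simp
        · have := E.dirI_mem o hk hI
          convert this using 2 with x
      have e : (fun x : Idx d => (k * p') * ev (X * T) (Y * T) ((o, act, l) :: L') x * s) =
          (fun x : Idx d => if coord x o = act then
            (k * p') * (if l then Y else X) * (q * k) else k) *
          fun x => p' * ev (X * T) (Y * T) L' x * s := by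
        funext x
        rw [Pi.mul_apply, ev_cons]
        unfold sval
        generalize ev (X * T) (Y * T) L' x = R
        by_cases h : coord x o = act
        · simp only [h, if_true]
          cases l
          · simp only [Bool.false_eq_true, if_false]
            rw [hq']
            simp only [mul_assoc]
          · simp only [if_true]
            rw [hq']
            simp only [mul_assoc]
        · simp only [h, if_false, one_mul]
          simp only [mul_assoc]
      rw [e]
      exact mul_mem h2 h1

end Dat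

end

end Pool.Agent.Q327.SN
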