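import Mathlib

/-!
Higher commutators of congruences of semigroups, supernilpotence, left and right nilpotence.
-/

set_option autoImplicit false

namespace Pool.Agent.Q327.SN

/-- The index set of the matrices: a row `ε ∈ {0,1}^m` and a column. -/
abbrev Idx (m : ℕ) : Type := (Fin m → Bool) × Bool

section Defs

variable {S : Type*} [Semigroup S] {m : ℕ}

/-- The generators of `M(α 0, …, α (m - 1), β)`: for `(a, b) ∈ α i` the matrix whose row `ε` is
`(a, a)` if `ε i = 0` and `(b, b)` if `ε i = 1`, and for `(a, b) ∈ β` the matrix all of whose rows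
are `(a, b)`. -/
def gens (α : Fin m → Con S) (β : Con S) : Set (Idx m → S) :=
  {c | (∃ (i : Fin m) (a b : S), α i a b ∧ c = fun x => if x.1 i then b else a) ∨
    ∃ a b : S, β a b ∧ c = fun x => if x.2 then b else a}

/-- The algebra of matrices `M(α 0, …, α (m - 1), β)`. -/
def Mat (α : Fin m → Con S) (β : Con S) : Subsemigroup (Idx m → S) :=
  Subsemigroup.closure (gens α β)

/-- For every matrix in `M(α 0, …, α (m - 1), β)`: if the two entries of each row different from
`(1, …, 1)` are `δ`-related, then so are the two entries of the row `(1, …, 1)`. -/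
def Centralizes (α : Fin m → Con S) (β δ : Con S) : Prop :=
  ∀ c ∈ Mat α β, (∀ ε, ε ≠ (fun _ => true) → δ (c (ε, false)) (c (ε, true))) →
    δ (c (fun _ => true, false)) (c (fun _ => true, true))

/-- The higher commutator `[α 0, …, α (m - 1), β]`. -/
def comm (α : Fin m → Con S) (β : Con S) : Con S := sInf {δ | Centralizes α β δ}

end Defs

/-- `S` is `d`-supernilpotent: `[1, …, 1] = 0` (`d + 1` copies of `1`). -/
def Supernilpotent (S : Type*) [Semigroup S] (d : ℕ) : Prop :=
  comm (fun _ : Fin d => (⊤ : Con S)) ⊤ = ⊥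

/-- `[1, [1, …, [1, 1]]]` with `n + 1` copies of `1`. -/
def leftSeries (S : Type*) [Semigroup S] : ℕ → Con S
  | 0 => ⊤
  | n + 1 => comm (fun _ : Fin 1 => (⊤ : Con S)) (leftSeries S n)

/-- `[[[1, 1], 1], …, 1]` with `n + 1` copies of `1`. -/
def rightSeries (S : Type*) [Semigroup S] : ℕ → Con S
  | 0 => ⊤
  | n + 1 => comm (fun _ : Fin 1 => rightSeries S n) (⊤ : Con S)

/-- `S` is left `d`-nilpotent. -/
def LeftNilpotent (S : Type*) [Semigroup S] (d : ℕ) : Prop := leftSeries S d = ⊥

/-- `S` is right `d`-nilpotent. -/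
def RightNilpotent (S : Type*) [Semigroup S] (d : ℕ) : Prop := rightSeries S d = ⊥

section Basic

variable {S : Type*} [Semigroup S] {m : ℕ}

theorem comm_le {α : Fin m → Con S} {β δ : Con S} (h : Centralizes α β δ) : comm α β ≤ δ :=
  sInf_le h

theorem centralizes_comm (α : Fin m → Con S) (β : Con S) : Centralizes α β (comm α β) := by
  intro c hc h
  have key : ∀ δ ∈ {δ | Centralizes α β δ},
      (δ : Con S) (c (fun _ => true, false)) (c (fun _ => true, true)) :=
    fun δ hδ => hδ c hc fun ε hε => (comm_le hδ) (h ε hε)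
  exact key

end Basic

end Pool.Agent.Q327.SN
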