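import Pool.Agent.Q327.SN.Rel

/-!
Supernilpotent semigroups: the dual statements.
-/

set_option autoImplicit false

namespace Pool.Agent.Q327.SN

open MulOpposite

section

variable {M : Type*} [Monoid M] {d : ℕ} (E : Dat M d)

theorem MatI_op {I : Set M} {c : Idx d → Mᵐᵒᵖ} (hc : c ∈ MatI (unop ⁻¹' I) d) :
    (fun x => unop (c x)) ∈ MatI I d := by
  induction hc using Subsemigroup.closure_induction with
  | mem c hc =>
    obtain ⟨o, a, ha, b, hb, rfl⟩ := hc
    refine Subsemigroup.subset_closure ⟨o, unop a, ha, unop b, hb, ?_⟩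
    funext x
    show unop (if coord x o then b else a) = if coord x o then unop b else unop a
    split_ifs <;> rfl
  | mul c c' _ _ h h' =>
    exact mul_mem h' h

namespace Dat

/-- the dual structure -/
def dual : Dat Mᵐᵒᵖ d where
  I := unop ⁻¹' E.I
  left := fun _ hx _ => E.right _ hx _
  right := fun _ hx _ => E.left _ hx _
  o := op E.o
  ho := E.ho
  term := fun c hc h => unop_injective (E.term _ (MatI_op hc) fun ε hε => congrArg unop (h ε hε))

theorem P_dual (k : ℕ) (z : Mᵐᵒᵖ) : z ∈ P E.dual.I k ↔ unop z ∈ P E.I k := by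
  induction k generalizing z with
  | zero => exact ⟨fun _ => trivial, fun _ => trivial⟩
  | succ k ih =>
    constructor
    · rintro ⟨a, ha, p, hp, rfl⟩
      rw [ih] at hp
      exact E.P_mul hp (E.mem_P_one.mpr ha)
    · intro h
      obtain ⟨u, hu, v, hv, e⟩ := E.P_split (k := k) (l := 1) h
      rw [E.mem_P_one] at hv
      exact ⟨op v, hv, op u, (ih _).mpr hu, unop_injective e⟩

theorem claimA' {T : M} (hT : T ∈ P E.I (N d)) (X Y : M) :
    ∃ u v : M, u * T * X * T = v * T * Y * T := by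
  obtain ⟨u, v, h⟩ := E.dual.claimA (T := op T) ((E.P_dual _ _).mpr hT) (op X) (op Y)
  refine ⟨unop u, unop v, ?_⟩
  have := congrArg unop h
  simpa [mul_assoc] using this

theorem Rl_iff {x y : M} : Rl x y ↔ Rr (op x) (op y) := by
  constructor
  · rintro ⟨u, v, h⟩
    exact ⟨op u, op v, congrArg op h⟩
  · rintro ⟨u, v, h⟩
    exact ⟨unop u, unop v, congrArg unop h⟩

theorem Rr_iff {x y : M} : Rr x y ↔ Rl (op x) (op y) := by
  constructor
  · rintro ⟨u, v, h⟩
    exact ⟨op u, op v, congrArg op h⟩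
  · rintro ⟨u, v, h⟩
    exact ⟨unop u, unop v, congrArg unop h⟩

theorem Rl_deep {T : M} (hT : T ∈ P E.I (N d)) (X Y : M) : Rl (X * T) (Y * T) :=
  Rl_iff.mpr (E.dual.Rr_deep (T := op T) ((E.P_dual _ _).mpr hT) (op X) (op Y))

theorem Rl_trans {x y z : M} (h : Rl x y) (h' : Rl y z) (hy : y ∈ P E.I (N d)) : Rl x z :=
  Rl_iff.mpr (E.dual.Rr_trans (Rl_iff.mp h) (Rl_iff.mp h') ((E.P_dual _ _).mpr hy))

theorem lemmaD' {x y s0 s : M} (hx : x ∈ E.I) (hy : y ∈ E.I) (h0 : s0 * x = s0 * y)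
    (hs : s ∈ P E.I (N d + d)) (hl : Rl s s0) : s * x = s * y := by
  have := E.dual.lemmaD (x := op x) (y := op y) (t0 := op s0) (t := op s) hx hy
    (congrArg op h0) ((E.P_dual _ _).mpr hs) (Rl_iff.mp hl)
  exact congrArg unop this

theorem ore_left {X Y : M} (hX : X ∈ P E.I (N d)) (hY : Y ∈ P E.I (N d)) (h : Rl X Y) (e : M) :
    ∃ β β' : M, (e * β * e) * X = (e * β' * e) * Y := by
  obtain ⟨β, β', h⟩ := E.dual.ore_right (X := op X) (Y := op Y) ((E.P_dual _ _).mpr hX)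
    ((E.P_dual _ _).mpr hY) (Rl_iff.mp h) (op e)
  refine ⟨unop β, unop β', ?_⟩
  have := congrArg unop h
  simpa [mul_assoc] using this

/-- **Uniformity.** -/
theorem unif {x y t0 t : M} (hx : x ∈ P E.I (N d)) (hy : y ∈ P E.I (N d + d + 1))
    (hl : Rl x y) (h0 : x * t0 = y * t0) (ht : t ∈ P E.I (N d + d)) : x * t = y * t :=
  E.uniform hx hy hl h0 ht fun _ _ _ _ h1 h2 h3 h4 h5 => E.lemmaD' h1 h2 h3 h4 h5

theorem dual_dual_P (k : ℕ) (z : M) : op (op z) ∈ P E.dual.dual.I k ↔ z ∈ P E.I k := by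
  rw [E.dual.P_dual, E.P_dual]
  rfl

theorem unif' {x y s0 s : M} (hx : x ∈ P E.I (N d)) (hy : y ∈ P E.I (N d + d + 1))
    (hr : Rr x y) (h0 : s0 * x = s0 * y) (hs : s ∈ P E.I (N d + d)) : s * x = s * y := by
  have := E.dual.unif (x := op x) (y := op y) (t0 := op s0) (t := op s)
    ((E.P_dual _ _).mpr hx) ((E.P_dual _ _).mpr hy) (Rr_iff.mp hr) (congrArg op h0)
    ((E.P_dual _ _).mpr hs)
  exact congrArg unop this

end Dat

end

end Pool.Agent.Q327.SN
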