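import Pool.Agent.Q327.SN.Steps

/-!
Supernilpotent semigroups are left and right nilpotent.
-/

set_option autoImplicit false

namespace Pool.Agent.Q327.SN

universe u

section Steps

variable {S M : Type u} [Semigroup S] [Monoid M] {d : ℕ} (E : Dat M d) (ι : S →ₙ* M)
  (hι : ∀ x, ι x ∈ E.I) {e : M} {H : Type u} [Group H] (F : E.Local e H)

namespace Dat

/-- the local congruences given by the upper central series -/
def NN (j : ℕ) : Con S :=
  mkCon (fun x y => ∀ A ∈ E.Lft e, ∀ B ∈ E.Rgt e,
      (QuotientGroup.mk (F.g (A * ι x * B)) : H ⧸ Subgroup.upperCentralSeries H j) =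
        QuotientGroup.mk (F.g (A * ι y * B)))
    ⟨fun x A _ B _ => rfl, fun h A hA B hB => (h A hA B hB).symm,
      fun h h' A hA B hB => (h A hA B hB).trans (h' A hA B hB)⟩
    (fun z x y h A hA B hB => by
      have := h (A * ι z) (E.mul_mem_Lft hA _) B hB
      simpa only [map_mul, mul_assoc] using this)
    (fun z x y h A hA B hB => by
      have := h A hA (ι z * B) (E.mul_mem_Rgt hB _)
      simpa only [map_mul, mul_assoc] using this)

theorem NN_top (x y : S) : E.NN ι F d x y := by
  intro A _ B _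
  rw [QuotientGroup.eq, F.top]
  exact Subgroup.mem_top _

theorem NN_key (j : ℕ) {x y : S} (h : (E.DD ι ⊓ E.NN ι F (j + 1)) x y) :
    ∃ z : H ⧸ Subgroup.upperCentralSeries H j, Cen j z ∧ ∀ A ∈ E.Lft e, ∀ B ∈ E.Rgt e,
      (QuotientGroup.mk (F.g (A * ι y * B)) : H ⧸ Subgroup.upperCentralSeries H j) =
        QuotientGroup.mk (F.g (A * ι x * B)) * z := by
  rcases E.DD_iff ι h.1 with h1 | ⟨hx, hy, hr, hl⟩
  · refine ⟨1, fun y => by rw [one_mul, mul_one], fun A _ B _ => ?_⟩
    rw [h1, mul_one]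
  have hx' : ι x ∈ P E.I (N d) := E.P_anti (by omega) hx
  have hy' : ι y ∈ P E.I (N d) := E.P_anti (by omega) hy
  have hcen : ∀ A ∈ E.Lft e, ∀ B ∈ E.Rgt e,
      Cen j (QuotientGroup.mk ((F.g (A * ι x * B))⁻¹ * F.g (A * ι y * B)) :
        H ⧸ Subgroup.upperCentralSeries H j) := by
    intro A hA B hB w
    have h2 := h.2 A hA B hB
    rw [QuotientGroup.eq] at h2
    induction w using QuotientGroup.induction_on with
    | H w =>
      rw [← QuotientGroup.mk_mul, ← QuotientGroup.mk_mul]
      exact central_of_mem h2 w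
  have hLe := E.self_Lft F.he
  have hRe := E.self_Rgt F.he
  refine ⟨_, hcen e hLe e hRe, fun A hA B hB => ?_⟩
  obtain ⟨z, hz⟩ := F.right_indep E hx' hy' hr hB
  obtain ⟨z', hz'⟩ := F.left_indep E hx' hy' hl hLe
  have e1 : (F.g (A * ι x * B))⁻¹ * F.g (A * ι y * B) = (F.g (e * ι x * B))⁻¹ *
      F.g (e * ι y * B) := by
    rw [hz A hA, hz e hLe, inv_mul_cancel_left, inv_mul_cancel_left]
  have e2 : ∀ B' ∈ E.Rgt e, (QuotientGroup.mk ((F.g (e * ι x * B'))⁻¹ * F.g (e * ι y * B')) :
        H ⧸ Subgroup.upperCentralSeries H j) = QuotientGroup.mk z' := by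
    intro B' hB'
    have e3 := hcen e hLe B' hB' (QuotientGroup.mk (F.g (e * ι x * B')))
    rw [← QuotientGroup.mk_mul, ← QuotientGroup.mk_mul, mul_inv_cancel_left, hz' B' hB',
      QuotientGroup.mk_mul, QuotientGroup.mk_mul] at e3
    rw [hz' B' hB']
    exact mul_right_cancel e3
  rw [e2 e hRe, ← e2 B hB, ← e1, ← QuotientGroup.mk_mul, mul_inv_cancel_left]

theorem NN_step (j : ℕ) : Red (E.DD ι ⊓ E.NN ι F (j + 1)) (E.NN ι F j) := by
  intro a b c d' h
  have hLe := E.self_Lft F.he
  have hRe := E.self_Rgt F.he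
  have key : ∃ z : H ⧸ Subgroup.upperCentralSeries H j, Cen j z ∧ ∀ A ∈ E.Lft e, ∀ B ∈ E.Rgt e,
      ((QuotientGroup.mk (F.g (A * ι b * B)) : H ⧸ Subgroup.upperCentralSeries H j) =
        QuotientGroup.mk (F.g (A * ι a * B)) * z) ∧
      ((QuotientGroup.mk (F.g (A * ι d' * B)) : H ⧸ Subgroup.upperCentralSeries H j) =
        QuotientGroup.mk (F.g (A * ι c * B)) * z) := by
    have hgen : ∀ {a b c d' : S}, G2 (E.DD ι ⊓ E.NN ι F (j + 1)) a b c d' →
        ∃ z : H ⧸ Subgroup.upperCentralSeries H j, Cen j z ∧ ∀ A ∈ E.Lft e, ∀ B ∈ E.Rgt e,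
      ((QuotientGroup.mk (F.g (A * ι b * B)) : H ⧸ Subgroup.upperCentralSeries H j) =
        QuotientGroup.mk (F.g (A * ι a * B)) * z) ∧
      ((QuotientGroup.mk (F.g (A * ι d' * B)) : H ⧸ Subgroup.upperCentralSeries H j) =
        QuotientGroup.mk (F.g (A * ι c * B)) * z) := by
      intro a b c d' g
      cases g with
      | row p q =>
        exact ⟨1, fun y => by rw [one_mul, mul_one], fun A _ B _ => by
          rw [mul_one, mul_one]; exact ⟨rfl, rfl⟩⟩
      | col p q hpq =>
        obtain ⟨z, hz, h1⟩ := E.NN_key ι F j hpq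
        exact ⟨z, hz, fun A hA B hB => ⟨h1 A hA B hB, h1 A hA B hB⟩⟩
    induction h with
    | gen g => exact hgen g
    | @mul p q r s a b c d' g _ ih =>
      obtain ⟨z, hz, h1⟩ := hgen g
      obtain ⟨z', hz', h2⟩ := ih
      refine ⟨z' * z, fun y => by rw [mul_assoc, hz y, ← mul_assoc, hz' y, mul_assoc],
        fun A hA B hB => ⟨?_, ?_⟩⟩
      · have e1 := (h1 A hA (ι b * B) (E.mul_mem_Rgt hB _)).1
        have e2 := (h2 (A * ι p) (E.mul_mem_Lft hA _) B hB).1
        simp only [map_mul, mul_assoc] at e1 e2 ⊢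
        rw [e1, e2, mul_assoc]
      · have e1 := (h1 A hA (ι d' * B) (E.mul_mem_Rgt hB _)).2
        have e2 := (h2 (A * ι r) (E.mul_mem_Lft hA _) B hB).2
        simp only [map_mul, mul_assoc] at e1 e2 ⊢
        rw [e1, e2, mul_assoc]
  obtain ⟨z, hz, h1⟩ := key
  constructor
  · intro h2 A hA B hB
    have e1 := h2 e hLe e hRe
    have e2 := (h1 e hLe e hRe).1
    rw [← e1] at e2
    have e3 : z = 1 := by simpa using e2.symm
    rw [(h1 A hA B hB).2, e3, mul_one]
  · intro h2 A hA B hB
    rw [(h1 A hA B hB).1, h2 A hA B hB, ← (h1 A hA B hB).2]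

theorem NN_zero : E.DD ι ⊓ E.NN ι F 0 ≤ E.EE ι (N d + d) (N d + d) := by
  intro x y h
  rcases E.DD_iff ι h.1 with h1 | ⟨hx, hy, hr, hl⟩
  · exact E.EE_congr ι h1
  · intro s hs t ht
    have h2 := h.2 e (E.self_Lft F.he) e (E.self_Rgt F.he)
    rw [QuotientGroup.eq, Subgroup.upperCentralSeries_zero, Subgroup.mem_bot] at h2
    exact F.lemmaA E (E.P_anti (by omega) hx) (E.P_anti (by omega) hy) hr hl
      (inv_mul_eq_one.mp h2) hs ht

/-- the bound for the nilpotence class -/
def bound (d : ℕ) : ℕ :=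
  (N d + d + N d) + N d + d + (N d + d) + (N d + d) * (N d + d + 1)

include hι F in
theorem main (hinj : Function.Injective ι) : LeftNilpotent S (bound d) ∧
    RightNilpotent S (bound d) := by
  have hN := N_pos d
  have h1 : ∀ m, Lvl m (E.Dp ι (m + 1)) := by
    intro m
    induction m with
    | zero => exact ⟨fun {x y} _ => E.Dp_one ι hι x y, fun {x y} _ => E.Dp_one ι hι x y⟩
    | succ m ih => exact ih.step (E.Dp_step ι hι (m + 1))
  have h2 : ∀ T, 1 ≤ T → Lvl T (E.Dp ι T) := by
    intro T hT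
    obtain ⟨T, rfl⟩ : ∃ T', T = T' + 1 := ⟨T - 1, by omega⟩
    exact (h1 T).keep
  have h3 : Lvl (N d + d + N d) (E.Dp ι (N d)) := by
    have := (h2 (N d) hN).keeps (d + N d)
    rwa [← add_assoc] at this
  have h4 : ∀ k, k ≤ N d → Lvl (N d + d + N d + k) (E.RR ι (N d - k)) := by
    intro k
    induction k with
    | zero => exact fun _ => h3.mono (E.Dp_le_RR ι)
    | succ k ih =>
      intro hk
      have h5 := ih (by omega)
      have e : N d - k = N d - (k + 1) + 1 := by omega
      rw [e] at h5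
      exact h5.step (E.RR_step ι hι _)
  have h4' : ∀ k, k ≤ N d → Lvl (N d + d + N d + k) (E.LL ι (N d - k)) := by
    intro k
    induction k with
    | zero => exact fun _ => h3.mono (E.Dp_le_LL ι)
    | succ k ih =>
      intro hk
      have h5 := ih (by omega)
      have e : N d - k = N d - (k + 1) + 1 := by omega
      rw [e] at h5
      exact h5.step (E.LL_step ι hι _)
  have h5 : Lvl (N d + d + N d + N d) (E.DD ι) := by
    refine ((h2 _ (by omega)).keeps _).inf (Lvl.inf ?_ ?_)
    · have := h4 _ le_rfl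
      rwa [Nat.sub_self] at this
    · have := h4' _ le_rfl
      rwa [Nat.sub_self] at this
  have h6 : ∀ k, k ≤ d → Lvl (N d + d + N d + N d + k) (E.NN ι F (d - k)) := by
    intro k
    induction k with
    | zero => exact fun _ => h5.mono fun {x y} _ => E.NN_top ι F x y
    | succ k ih =>
      intro hk
      have h7 := (h5.keeps k).inf (ih (by omega))
      have e : d - k = d - (k + 1) + 1 := by omega
      rw [e] at h7
      exact h7.step (E.NN_step ι F _)
  have h7 : Lvl (N d + d + N d + N d + d) (E.EE ι (N d + d) (N d + d)) := by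
    have := h6 d le_rfl
    rw [Nat.sub_self] at this
    exact ((h5.keeps d).inf this).mono (E.NN_zero ι F)
  have h8 : ∀ k, k ≤ N d + d →
      Lvl (N d + d + N d + N d + d + k) (E.EE ι (N d + d - k) (N d + d)) := by
    intro k
    induction k with
    | zero => exact fun _ => h7
    | succ k ih =>
      intro hk
      have h9' := h5.keeps (d + k)
      rw [← add_assoc] at h9'
      have h9 := h9'.inf (ih (by omega))
      have e : N d + d - k = N d + d - (k + 1) + 1 := by omega
      rw [e] at h9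
      exact h9.step (E.I1 ι hι _)
  obtain ⟨n0, hn0⟩ : ∃ n0, n0 = N d + d + N d + N d + d + (N d + d) := ⟨_, rfl⟩
  have h9 : Lvl n0 (E.EE ι 0 (N d + d)) := by
    have := h8 _ le_rfl
    rwa [Nat.sub_self, ← hn0] at this
  have h10 : ∀ n l, n0 ≤ n → Lvl n (E.EE ι 0 (l + 1)) → Lvl (n + (N d + d + 1)) (E.EE ι 0 l) := by
    intro n l hn h
    have hD : Lvl n (E.DD ι) := by
      obtain ⟨r, rfl⟩ : ∃ r, n = N d + d + N d + N d + r := ⟨n - (N d + d + N d + N d), by omega⟩
      exact h5.keeps r
    have h11 : ∀ k, k ≤ N d + d → Lvl (n + 1 + k) (E.EE ι (N d + d - k) l) := by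
      intro k
      induction k with
      | zero => exact fun _ => (hD.inf h).step (E.I2a ι hι l)
      | succ k ih =>
        intro hk
        have h12 := (h.keeps (1 + k))
        rw [← add_assoc] at h12
        have h13 := h12.inf (ih (by omega))
        have e : N d + d - k = N d + d - (k + 1) + 1 := by omega
        rw [e] at h13
        exact h13.step (E.I2b ι hι _ l)
    have h14 := h11 _ le_rfl
    rw [Nat.sub_self] at h14
    have e : n + (N d + d + 1) = n + 1 + (N d + d) := by omega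
    rw [e]
    exact h14
  have h11 : ∀ k, k ≤ N d + d → Lvl (n0 + k * (N d + d + 1)) (E.EE ι 0 (N d + d - k)) := by
    intro k
    induction k with
    | zero => exact fun _ => by rw [Nat.zero_mul]; exact h9
    | succ k ih =>
      intro hk
      have h12 := ih (by omega)
      have e : N d + d - k = N d + d - (k + 1) + 1 := by omega
      rw [e] at h12
      have h13 := h10 _ _ (Nat.le_add_right _ _) h12
      rw [Nat.succ_mul, ← add_assoc]
      exact h13
  have h12 := h11 _ le_rfl
  rw [Nat.sub_self, hn0] at h12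
  have h13 : E.EE ι 0 0 ≤ ⊥ := by
    intro x y h
    have := h 1 trivial 1 trivial
    rw [one_mul, one_mul, mul_one, mul_one] at this
    exact hinj this
  exact ⟨le_antisymm (h12.1.trans h13) bot_le, le_antisymm (h12.2.trans h13) bot_le⟩

end Dat

end Steps

section Main

variable {S : Type u} [Semigroup S] {d : ℕ}

theorem exists_lift {c : Idx d → WithOne S} (hc : c ∈ MatI (Set.range ((↑) : S → WithOne S)) d) :
    ∃ c' ∈ Mat (fun _ : Fin d => (⊤ : Con S)) (⊤ : Con S), ∀ x, c x = c' x := by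
  induction hc using Subsemigroup.closure_induction with
  | mem c hc =>
    obtain ⟨o, _, ⟨a, rfl⟩, _, ⟨b, rfl⟩, rfl⟩ := hc
    refine ⟨_, dirS_mem o a b, fun x => ?_⟩
    show (if coord x o then (b : WithOne S) else a) = ((if coord x o then b else a : S) : WithOne S)
    split_ifs <;> rfl
  | mul c c' _ _ h h' =>
    obtain ⟨c1, h1, e1⟩ := h
    obtain ⟨c2, h2, e2⟩ := h'
    exact ⟨c1 * c2, mul_mem h1 h2, fun x => by
      rw [Pi.mul_apply, Pi.mul_apply, e1, e2, WithOne.coe_mul]⟩

/-- the structure used in the proof -/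
def toDat (h : Supernilpotent S d) (s0 : S) : Dat (WithOne S) d where
  I := Set.range ((↑) : S → WithOne S)
  left := by
    rintro _ ⟨x, rfl⟩ y
    exact WithOne.cases_on (P := fun y : WithOne S => y * x ∈ Set.range ((↑) : S → WithOne S)) y
      ⟨x, by rw [one_mul]⟩ (fun y => ⟨y * x, by rw [WithOne.coe_mul]⟩)
  right := by
    rintro _ ⟨x, rfl⟩ y
    exact WithOne.cases_on (P := fun y : WithOne S => x * y ∈ Set.range ((↑) : S → WithOne S)) y
      ⟨x, by rw [mul_one]⟩ (fun y => ⟨x * y, by rw [WithOne.coe_mul]⟩)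
  o := s0
  ho := ⟨s0, rfl⟩
  term := by
    intro c hc h1
    obtain ⟨c', hc', e⟩ := exists_lift hc
    rw [e, e]
    congr 1
    refine h.apply hc' fun ε hε => ?_
    have := h1 ε hε
    rw [e, e] at this
    exact WithOne.coe_injective this

/-- **Supernilpotent semigroups are left and right nilpotent.** -/
theorem semigroup_main (h : Supernilpotent S d) : LeftNilpotent S (Dat.bound d) ∧
    RightNilpotent S (Dat.bound d) := by
  rcases isEmpty_or_nonempty S with hS | ⟨⟨s0⟩⟩
  · exact ⟨Con.ext fun x => isEmptyElim x, Con.ext fun x => isEmptyElim x⟩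
  · obtain ⟨e, H, _, ⟨F⟩⟩ := (toDat h s0).exists_Local
    exact (toDat h s0).main ⟨((↑) : S → WithOne S), WithOne.coe_mul⟩ (fun x => ⟨x, rfl⟩) F
      WithOne.coe_injective

end Main

end Pool.Agent.Q327.SN
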