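import Pool.Agent.Q327.SN.Nilp

/-!
The group of fractions of a semigroup in which any two elements have common left multiples and
common right multiples.
-/

set_option autoImplicit false

namespace Pool.Agent.Q327.SN

universe u

section

variable {Q : Type u} [Semigroup Q]

/-- two elements become equal after multiplication on both sides -/
def eqv (hl : ∀ a b : Q, ∃ u v, u * a = v * b) (hr : ∀ a b : Q, ∃ u v, a * u = b * v) :
    Con Q where
  r x y := ∃ a b, a * x * b = a * y * b
  iseqv := by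
    refine ⟨fun x => ⟨x, x, rfl⟩, fun ⟨a, b, h⟩ => ⟨a, b, h.symm⟩, ?_⟩
    rintro x y z ⟨a, b, h⟩ ⟨a', b', h'⟩
    obtain ⟨u, v, e⟩ := hl a a'
    obtain ⟨p, q, e'⟩ := hr b b'
    refine ⟨u * a, b * p, ?_⟩
    calc u * a * x * (b * p) = u * (a * x * b) * p := by simp only [mul_assoc]
      _ = (u * a) * y * (b * p) := by rw [h]; simp only [mul_assoc]
      _ = v * (a' * y * b') * q := by rw [e, e']; simp only [mul_assoc]
      _ = (v * a') * z * (b' * q) := by rw [h']; simp only [mul_assoc]
      _ = u * a * z * (b * p) := by rw [e, e']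
  mul' := by
    rintro x y x' y' ⟨a, b, h⟩ ⟨a', b', h'⟩
    obtain ⟨p, q, e⟩ := hr b (x' * b')
    obtain ⟨u, v, e'⟩ := hl (a * y) a'
    refine ⟨u * a, b' * q, ?_⟩
    calc u * a * (x * x') * (b' * q) = u * (a * x) * (x' * b' * q) := by simp only [mul_assoc]
      _ = u * (a * x * b) * p := by rw [← e]; simp only [mul_assoc]
      _ = (u * (a * y)) * (b * p) := by rw [h]; simp only [mul_assoc]
      _ = (u * (a * y)) * (x' * b' * q) := by rw [e]
      _ = v * (a' * x' * b') * q := by rw [e']; simp only [mul_assoc]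
      _ = (v * a') * (y' * b' * q) := by rw [h']; simp only [mul_assoc]
      _ = u * a * (y * y') * (b' * q) := by rw [← e']; simp only [mul_assoc]

open OreLocalization

theorem exists_group [Nonempty Q] (hl : ∀ a b : Q, ∃ u v, u * a = v * b)
    (hr : ∀ a b : Q, ∃ u v, a * u = b * v) :
    ∃ (H : Type u) (_ : Group H) (γ : Q →ₙ* H),
      (∀ x y, γ x = γ y ↔ ∃ a b, a * x * b = a * y * b) ∧ (∀ g, ∃ s r, γ s * g = γ r) := by
  let r := eqv hl hr
  let C := r.Quotient
  let mk : Q → C := fun x => (x : r.Quotient)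
  have mk_mul : ∀ x y, mk (x * y) = mk x * mk y := fun x y => rfl
  have mk_eq : ∀ x y, mk x = mk y ↔ ∃ a b, a * x * b = a * y * b := fun x y => r.eq
  have mk_surj : ∀ c : C, ∃ x, mk x = c := fun c => by
    induction c using Con.induction_on with
    | H x => exact ⟨x, rfl⟩
  have lcan : ∀ c x y : C, c * x = c * y → x = y := by
    intro c x y h
    obtain ⟨c, rfl⟩ := mk_surj c
    obtain ⟨x, rfl⟩ := mk_surj x
    obtain ⟨y, rfl⟩ := mk_surj y
    rw [← mk_mul, ← mk_mul, mk_eq] at h
    obtain ⟨a, b, h⟩ := h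
    rw [mk_eq]
    exact ⟨a * c, b, by simpa only [mul_assoc] using h⟩
  have rcan : ∀ c x y : C, x * c = y * c → x = y := by
    intro c x y h
    obtain ⟨c, rfl⟩ := mk_surj c
    obtain ⟨x, rfl⟩ := mk_surj x
    obtain ⟨y, rfl⟩ := mk_surj y
    rw [← mk_mul, ← mk_mul, mk_eq] at h
    obtain ⟨a, b, h⟩ := h
    rw [mk_eq]
    exact ⟨a, c * b, by simpa only [mul_assoc] using h⟩
  have hlC : ∀ a b : C, ∃ u v, u * a = v * b := by
    intro a b
    obtain ⟨a, rfl⟩ := mk_surj a
    obtain ⟨b, rfl⟩ := mk_surj b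
    obtain ⟨u, v, h⟩ := hl a b
    exact ⟨mk u, mk v, by rw [← mk_mul, h, mk_mul]⟩
  obtain ⟨c0⟩ : Nonempty C := Nonempty.map mk inferInstance
  have inW : ∀ w : WithOne C, ∃ c : C, (c0 : WithOne C) * w = c := by
    intro w
    exact WithOne.cases_on (P := fun w : WithOne C => ∃ c : C, (c0 : WithOne C) * w = c) w
      ⟨c0, by rw [mul_one]⟩ (fun c => ⟨c0 * c, by rw [WithOne.coe_mul]⟩)
  have inW' : ∀ w : WithOne C, ∃ c : C, w * (c0 : WithOne C) = c := by
    intro w
    exact WithOne.cases_on (P := fun w : WithOne C => ∃ c : C, w * (c0 : WithOne C) = c) w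
      ⟨c0, by rw [one_mul]⟩ (fun c => ⟨c * c0, by rw [WithOne.coe_mul]⟩)
  have hoW : ∀ a b : WithOne C, ∃ u v : WithOne C, u * a = v * b := by
    intro a b
    obtain ⟨a', ha⟩ := inW a
    obtain ⟨b', hb⟩ := inW b
    obtain ⟨u, v, h⟩ := hlC a' b'
    refine ⟨u * c0, v * c0, ?_⟩
    rw [mul_assoc, ha, mul_assoc, hb, ← WithOne.coe_mul, h, WithOne.coe_mul]
  have hcW : ∀ a b s : WithOne C, a * s = b * s → ∃ s' : WithOne C, s' * a = s' * b := by
    intro a b s h
    obtain ⟨a', ha⟩ := inW a
    obtain ⟨b', hb⟩ := inW b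
    obtain ⟨s', hs⟩ := inW' s
    refine ⟨c0, ?_⟩
    have h1 : (c0 * a) * (s * c0) = (c0 * b) * (s * c0) := by
      calc (c0 * a) * (s * c0) = c0 * (a * s) * c0 := by simp only [mul_assoc]
        _ = c0 * (b * s) * c0 := by rw [h]
        _ = (c0 * b) * (s * c0) := by simp only [mul_assoc]
    rw [ha, hb, hs, ← WithOne.coe_mul, ← WithOne.coe_mul, WithOne.coe_inj] at h1
    rw [ha, hb, rcan _ _ _ h1]
  letI : OreSet (⊤ : Submonoid (WithOne C)) :=
    { ore_right_cancel := fun r₁ r₂ s hs => by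
        obtain ⟨s', h⟩ := hcW _ _ _ hs
        exact ⟨⟨s', trivial⟩, h⟩
      oreNum := fun r s => (hoW r s).choose_spec.choose
      oreDenom := fun r s => ⟨(hoW r s).choose, trivial⟩
      ore_eq := fun r s => (hoW r s).choose_spec.choose_spec }
  have hunit : ∀ x : OreLocalization (⊤ : Submonoid (WithOne C)) (WithOne C), IsUnit x := by
    intro x
    induction x using OreLocalization.ind with
    | _ r s =>
      have h1 := numerator_isUnit (⟨r, trivial⟩ : (⊤ : Submonoid (WithOne C)))
      have h2 := numerator_isUnit s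
      have h3 : numeratorHom (s : WithOne C) * (r /ₒ s) = numeratorHom r := by
        rw [numeratorHom_apply, numeratorHom_apply]
        exact OreLocalization.mul_cancel
      have h4 : IsUnit (numeratorHom (s : WithOne C) * (r /ₒ s)) := by
        rw [h3]; exact h1
      exact (h2.mul_left_iff).mp h4
  letI : Group (OreLocalization (⊤ : Submonoid (WithOne C)) (WithOne C)) := groupOfIsUnit hunit
  let num : WithOne C →* OreLocalization (⊤ : Submonoid (WithOne C)) (WithOne C) := numeratorHom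
  have num_eq : ∀ a b : C, num a = num b → a = b := by
    intro a b hab
    have hab' : numeratorHom (a : WithOne C) = numeratorHom (b : WithOne C) := hab
    rw [numeratorHom_apply, numeratorHom_apply, oreDiv_eq_iff] at hab'
    obtain ⟨u, v, h1, h2⟩ := hab'
    have e : (u : WithOne C) = v := by simpa using h2
    have h3 : (u : WithOne C) * b = v * a := h1
    rw [← e] at h3
    obtain ⟨u', hu⟩ := inW (u : WithOne C)
    have h4 : (c0 : WithOne C) * ((u : WithOne C) * b) = c0 * ((u : WithOne C) * a) := by rw [h3]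
    rw [← mul_assoc, ← mul_assoc, hu, ← WithOne.coe_mul, ← WithOne.coe_mul,
      WithOne.coe_inj] at h4
    exact (lcan _ _ _ h4).symm
  refine ⟨OreLocalization (⊤ : Submonoid (WithOne C)) (WithOne C), inferInstance,
    ⟨fun x => num (mk x : C), ?_⟩, ?_, ?_⟩
  · intro x y
    show num ((mk (x * y) : C) : WithOne C) = _
    rw [mk_mul, WithOne.coe_mul, map_mul]
  · intro x y
    show num (mk x : C) = num (mk y : C) ↔ _
    rw [← mk_eq]
    exact ⟨num_eq _ _, fun h => by rw [h]⟩
  · intro g
    induction g using OreLocalization.ind with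
    | _ r s =>
      have h3 : num (s : WithOne C) * (r /ₒ s) = num r := by
        show numeratorHom (s : WithOne C) * (r /ₒ s) = numeratorHom r
        rw [numeratorHom_apply, numeratorHom_apply]
        exact OreLocalization.mul_cancel
      obtain ⟨s', hs⟩ := inW (s : WithOne C)
      obtain ⟨r', hr'⟩ := inW r
      obtain ⟨s'', rfl⟩ := mk_surj s'
      obtain ⟨r'', rfl⟩ := mk_surj r'
      refine ⟨s'', r'', ?_⟩
      show num (mk s'' : C) * (r /ₒ s) = num (mk r'' : C)
      rw [← hs, ← hr', map_mul, map_mul, mul_assoc, h3]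

end

section Multiples

variable {Q : Type u} [Semigroup Q]

theorem common_left [Nonempty Q] (hl : ∀ a b : Q, ∃ u v, u * a = v * b) {ι : Type*} (f : ι → Q)
    (s : Finset ι) : ∃ a, ∀ i ∈ s, ∃ u, a = u * f i := by
  classical
  induction s using Finset.induction_on with
  | empty => exact ⟨Classical.arbitrary Q, by simp⟩
  | insert j s _ ih =>
    obtain ⟨a, ha⟩ := ih
    obtain ⟨u, v, h⟩ := hl a (f j)
    refine ⟨u * a, fun i hi => ?_⟩
    rw [Finset.mem_insert] at hi
    rcases hi with rfl | hi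
    · exact ⟨v, h⟩
    · obtain ⟨w, hw⟩ := ha i hi
      exact ⟨u * w, by rw [hw, mul_assoc]⟩

theorem common_right [Nonempty Q] (hr : ∀ a b : Q, ∃ u v, a * u = b * v) {ι : Type*} (f : ι → Q)
    (s : Finset ι) : ∃ a, ∀ i ∈ s, ∃ u, a = f i * u := by
  classical
  induction s using Finset.induction_on with
  | empty => exact ⟨Classical.arbitrary Q, by simp⟩
  | insert j s _ ih =>
    obtain ⟨a, ha⟩ := ih
    obtain ⟨u, v, h⟩ := hr a (f j)
    refine ⟨a * u, fun i hi => ?_⟩
    rw [Finset.mem_insert] at hi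
    rcases hi with rfl | hi
    · exact ⟨v, h⟩
    · obtain ⟨w, hw⟩ := ha i hi
      exact ⟨w * u, by rw [hw, mul_assoc]⟩

/-- the group of fractions of a supernilpotent two-sided Ore semigroup is nilpotent -/
theorem exists_nilp_group {d : ℕ} [Nonempty Q] (hl : ∀ a b : Q, ∃ u v, u * a = v * b)
    (hr : ∀ a b : Q, ∃ u v, a * u = b * v)
    (hterm : ∀ c ∈ Mat (fun _ : Fin d => (⊤ : Con Q)) (⊤ : Con Q),
      (∀ ε, ε ≠ (fun _ => true) → c (ε, false) = c (ε, true)) →
      c (fun _ => true, false) = c (fun _ => true, true)) :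
    ∃ (H : Type u) (_ : Group H) (γ : Q →ₙ* H),
      (∀ x y, γ x = γ y ↔ ∃ a b, a * x * b = a * y * b) ∧
      Subgroup.upperCentralSeries H d = ⊤ := by
  obtain ⟨H, _, γ, h1, h2⟩ := exists_group hl hr
  refine ⟨H, inferInstance, γ, h1, ucs_eq_top fun c hc hc1 => ?_⟩
  refine group_term γ hl h2 ?_ hc hc1
  intro c hc hγ
  have h3 : ∀ ε : Fin d → Bool, ∃ a b, ε ≠ (fun _ => true) →
      a * c (ε, false) * b = a * c (ε, true) * b := by
    intro ε
    by_cases hε : ε = fun _ => true
    · exact ⟨Classical.arbitrary Q, Classical.arbitrary Q, fun h => absurd hε h⟩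
    · obtain ⟨a, b, h⟩ := (h1 _ _).mp (hγ ε hε)
      exact ⟨a, b, fun _ => h⟩
  choose a b hab using h3
  obtain ⟨a0, ha0⟩ := common_left hl a Finset.univ
  obtain ⟨b0, hb0⟩ := common_right hr b Finset.univ
  have h4 := hterm (fun x => a0 * c x * b0) ?_ ?_
  · exact (h1 _ _).mpr ⟨a0, b0, h4⟩
  · have m1 : (fun _ : Idx d => a0) ∈ Mat (fun _ : Fin d => (⊤ : Con Q)) (⊤ : Con Q) := by
      have := dirS_mem (d := d) none a0 a0
      simpa using this
    have m2 : (fun _ : Idx d => b0) ∈ Mat (fun _ : Fin d => (⊤ : Con Q)) (⊤ : Con Q) := by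
      have := dirS_mem (d := d) none b0 b0
      simpa using this
    exact mul_mem (mul_mem m1 hc) m2
  · intro ε hε
    obtain ⟨u, hu⟩ := ha0 ε (Finset.mem_univ _)
    obtain ⟨v, hv⟩ := hb0 ε (Finset.mem_univ _)
    show a0 * c (ε, false) * b0 = a0 * c (ε, true) * b0
    calc a0 * c (ε, false) * b0 = u * (a ε * c (ε, false) * b ε) * v := by
          rw [hu, hv]; simp only [mul_assoc]
      _ = a0 * c (ε, true) * b0 := by rw [hab ε hε, hu, hv]; simp only [mul_assoc]

end Multiples

end Pool.Agent.Q327.SN
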