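import Pool.Agent.Q327.SN.Defs

/-!
The words which show that a free monoid is not supernilpotent, and their consequences for
supernilpotent monoids: cancellation and the Thue–Morse law.
-/

set_option autoImplicit false

namespace Pool.Agent.Q327.SN

open List

/-- the coordinate of an index in a direction (`none` is the direction of the columns) -/
def coord {d : ℕ} (x : Idx d) : Option (Fin d) → Bool
  | none => x.2
  | some i => x.1 i

/-- A slot: its direction, the value of the coordinate at which it is active, and its letter. -/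
abbrev Slot (d : ℕ) : Type := Option (Fin d) × Bool × Bool

section Monoid

variable {S : Type*} [Monoid S] {d : ℕ}

/-- value of a slot -/
def sval (A B : S) (s : Slot d) (x : Idx d) : S :=
  if coord x s.1 = s.2.1 then (if s.2.2 then B else A) else 1

/-- value of a word -/
def ev (A B : S) (W : List (Slot d)) (x : Idx d) : S := (W.map fun s => sval A B s x).prod

theorem dir_mem (o : Option (Fin d)) (a b : S) :
    (fun x : Idx d => if coord x o then b else a) ∈
      Mat (fun _ : Fin d => (⊤ : Con S)) (⊤ : Con S) := by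
  apply Subsemigroup.subset_closure
  cases o with
  | none => exact Or.inr ⟨a, b, trivial, rfl⟩
  | some i => exact Or.inl ⟨i, a, b, trivial, rfl⟩

theorem one_mem_mat : (fun _ : Idx d => (1 : S)) ∈
    Mat (fun _ : Fin d => (⊤ : Con S)) (⊤ : Con S) := by
  have := dir_mem (d := d) none (1 : S) 1
  simpa using this

theorem list_prod_mem {L : List (Idx d → S)}
    (h : ∀ c ∈ L, c ∈ Mat (fun _ : Fin d => (⊤ : Con S)) (⊤ : Con S)) :
    L.prod ∈ Mat (fun _ : Fin d => (⊤ : Con S)) (⊤ : Con S) := by
  induction L with
  | nil => exact one_mem_mat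
  | cons a L ih =>
    rw [List.prod_cons]
    exact mul_mem (h a (by simp)) (ih fun c hc => h c (by simp [hc]))

theorem sval_mem (A B : S) (s : Slot d) :
    sval A B s ∈ Mat (fun _ : Fin d => (⊤ : Con S)) (⊤ : Con S) := by
  obtain ⟨o, act, l⟩ := s
  have key : sval A B (o, act, l) = fun x : Idx d => if coord x o then
      (if act then (if l then B else A) else 1) else (if act then 1 else (if l then B else A)) := by
    funext x
    unfold sval
    cases h : coord x o <;> cases act <;> simp [h]
  rw [key]
  exact dir_mem o _ _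

theorem ev_mem (A B : S) (W : List (Slot d)) :
    ev A B W ∈ Mat (fun _ : Fin d => (⊤ : Con S)) (⊤ : Con S) := by
  have key : ev A B W = (W.map fun s => sval A B s).prod := by
    funext x
    unfold ev
    rw [Pi.list_prod_apply, List.map_map]
    rfl
  rw [key]
  apply list_prod_mem
  intro c hc
  rw [List.mem_map] at hc
  obtain ⟨s, _, rfl⟩ := hc
  exact sval_mem A B s

end Monoid

/-- the substitution `a ↦ a b`, `b ↦ b a` of slots, with a new direction `0` -/
def T {d : ℕ} (s : Slot d) : List (Slot (d + 1)) :=
  if s.2.2 then [(some 0, false, false), (s.1.map Fin.succ, s.2.1, true),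
    (s.1.map Fin.succ, s.2.1, false), (some 0, false, true)]
  else [(s.1.map Fin.succ, s.2.1, false), (s.1.map Fin.succ, s.2.1, true)]

/-- the words -/
def W : (d : ℕ) → List (Slot d)
  | 0 => [(none, true, false), (none, false, true)]
  | d + 1 => (W d).flatMap T

/-- forget the coordinate `0` -/
def tl {d : ℕ} (x : Idx (d + 1)) : Idx d := (fun i => x.1 i.succ, x.2)

theorem coord_map {d : ℕ} (x : Idx (d + 1)) (o : Option (Fin d)) :
    coord x (o.map Fin.succ) = coord (tl x) o := by
  cases o <;> rfl

/-- the number of active slots -/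
def cnt {d : ℕ} (L : List (Slot d)) (x : Idx d) : ℕ :=
  (L.map fun s => if coord x s.1 = s.2.1 then 1 else 0).sum

/-- the number of slots with the letter `b` -/
def nb {d : ℕ} (L : List (Slot d)) : ℕ := (L.map fun s => if s.2.2 then 1 else 0).sum

section Monoid

variable {S : Type*} [Monoid S] {d : ℕ}

theorem ev_cons (A B : S) (s : Slot d) (L : List (Slot d)) (x : Idx d) :
    ev A B (s :: L) x = sval A B s x * ev A B L x := by
  simp [ev]

theorem ev_append (A B : S) (L L' : List (Slot d)) (x : Idx d) :
    ev A B (L ++ L') x = ev A B L x * ev A B L' x := by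
  simp [ev]

theorem ev_nil (A B : S) (x : Idx d) : ev A B ([] : List (Slot d)) x = 1 := by
  simp [ev]

theorem coord_some (x : Idx d) (i : Fin d) : coord x (some i) = x.1 i := rfl

theorem ev_T_true (A B : S) (s : Slot d) (x : Idx (d + 1)) (hx : x.1 0 = true) :
    ev A B (T s) x = sval (A * B) (B * A) s (tl x) := by
  obtain ⟨o, act, l⟩ := s
  cases l
  · by_cases h : coord (tl x) o = act <;> simp [T, ev_cons, ev_nil, sval, coord_map, h]
  · by_cases h : coord (tl x) o = act <;>
      simp [T, ev_cons, ev_nil, sval, coord_map, h, coord_some, hx]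

theorem ev_T_false (A B : S) (s : Slot d) (x : Idx (d + 1)) (hx : x.1 0 = false) :
    ev A B (T s) x = (A * B) ^ ((if coord (tl x) s.1 = s.2.1 then 1 else 0) +
      (if s.2.2 then 1 else 0)) := by
  obtain ⟨o, act, l⟩ := s
  cases l
  · by_cases h : coord (tl x) o = act <;> simp [T, ev_cons, ev_nil, sval, coord_map, h]
  · by_cases h : coord (tl x) o = act <;>
      simp [T, ev_cons, ev_nil, sval, coord_map, h, coord_some, hx, pow_succ, mul_assoc]

theorem ev_flatMap_true (A B : S) (L : List (Slot d)) (x : Idx (d + 1)) (hx : x.1 0 = true) :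
    ev A B (L.flatMap T) x = ev (A * B) (B * A) L (tl x) := by
  induction L with
  | nil => simp [ev]
  | cons s L ih =>
    rw [List.flatMap_cons, ev_append, ih, ev_cons, ev_T_true A B s x hx]

theorem ev_flatMap_false (A B : S) (L : List (Slot d)) (x : Idx (d + 1)) (hx : x.1 0 = false) :
    ev A B (L.flatMap T) x = (A * B) ^ (cnt L (tl x) + nb L) := by
  induction L with
  | nil => simp [ev, cnt, nb]
  | cons s L ih =>
    rw [List.flatMap_cons, ev_append, ih, ev_T_false A B s x hx, ← pow_add]
    congr 1
    simp only [cnt, nb, List.map_cons, List.sum_cons]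
    ring

theorem cnt_append (L L' : List (Slot d)) (x : Idx d) :
    cnt (L ++ L') x = cnt L x + cnt L' x := by
  simp [cnt]

theorem cnt_T (s : Slot d) (x : Idx (d + 1)) :
    cnt (T s) x = 2 * (if coord (tl x) s.1 = s.2.1 then 1 else 0) +
      2 * (if s.2.2 ∧ x.1 0 = false then 1 else 0) := by
  obtain ⟨o, act, l⟩ := s
  cases l <;> cases h0 : x.1 0 <;> by_cases h : coord (tl x) o = act <;>
    simp [T, cnt, coord_map, h, coord_some, h0]

theorem cnt_flatMap (L : List (Slot d)) (x : Idx (d + 1)) :
    cnt (L.flatMap T) x = 2 * cnt L (tl x) + 2 * (if x.1 0 = false then nb L else 0) := by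
  induction L with
  | nil => simp [cnt, nb]
  | cons s L ih =>
    rw [List.flatMap_cons, cnt_append, ih, cnt_T]
    obtain ⟨o, act, l⟩ := s
    by_cases h : coord (tl x) o = act <;> cases l <;> cases h0 : x.1 0 <;>
      simp [cnt, nb, h] <;> ring

theorem balanced : ∀ (d : ℕ) (ε : Fin d → Bool), cnt (W d) (ε, false) = cnt (W d) (ε, true)
  | 0, ε => by simp [W, cnt, coord]
  | d + 1, ε => by
    rw [W, cnt_flatMap, cnt_flatMap]
    have h1 : tl (ε, false) = (fun i => ε i.succ, false) := rfl
    have h2 : tl (ε, true) = (fun i => ε i.succ, true) := rfl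
    rw [h1, h2, balanced d]

theorem ev_eq : ∀ (d : ℕ) (A B : S) (ε : Fin d → Bool), ε ≠ (fun _ => true) →
    ev A B (W d) (ε, false) = ev A B (W d) (ε, true)
  | 0, A, B, ε, h => absurd (Subsingleton.elim _ _) h
  | d + 1, A, B, ε, h => by
    rw [W]
    cases h0 : ε 0 with
    | false =>
      rw [ev_flatMap_false A B _ (ε, false) h0, ev_flatMap_false A B _ (ε, true) h0]
      have h1 : tl (ε, false) = (fun i => ε i.succ, false) := rfl
      have h2 : tl (ε, true) = (fun i => ε i.succ, true) := rfl
      rw [h1, h2, balanced d]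
    | true =>
      rw [ev_flatMap_true A B _ (ε, false) h0, ev_flatMap_true A B _ (ε, true) h0]
      refine ev_eq d _ _ (fun i => ε i.succ) fun hc => h ?_
      funext i
      refine Fin.cases h0 (fun j => ?_) i
      exact congrFun hc j

/-- the Thue–Morse words -/
def thue {S : Type*} [Mul S] : ℕ → S → S → S × S
  | 0, A, B => (A, B)
  | d + 1, A, B => thue d (A * B) (B * A)

theorem ev_one : ∀ (d : ℕ) (A B : S),
    ev A B (W d) (fun _ => true, false) = (thue d A B).2 ∧
      ev A B (W d) (fun _ => true, true) = (thue d A B).1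
  | 0, A, B => by simp [W, ev, sval, coord, thue]
  | d + 1, A, B => by
    rw [W, ev_flatMap_true A B _ (fun _ => true, false) rfl,
      ev_flatMap_true A B _ (fun _ => true, true) rfl]
    exact ev_one d (A * B) (B * A)

theorem thue_ends : ∀ (d : ℕ) (A B : S), ∃ u v : S,
    ((thue d A B).1 = u * A ∧ (thue d A B).2 = v * B) ∨
      ((thue d A B).1 = u * B ∧ (thue d A B).2 = v * A)
  | 0, A, B => ⟨1, 1, Or.inl ⟨by simp [thue], by simp [thue]⟩⟩
  | d + 1, A, B => by
    obtain ⟨u, v, h | h⟩ := thue_ends d (A * B) (B * A)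
    · exact ⟨u * A, v * B, Or.inr ⟨by rw [thue, h.1, mul_assoc], by rw [thue, h.2, mul_assoc]⟩⟩
    · exact ⟨u * B, v * A, Or.inl ⟨by rw [thue, h.1, mul_assoc], by rw [thue, h.2, mul_assoc]⟩⟩

/-- the term condition of a supernilpotent semigroup -/
theorem Supernilpotent.apply {S : Type*} [Semigroup S] {d : ℕ} (h : Supernilpotent S d)
    {c : Idx d → S} (hc : c ∈ Mat (fun _ : Fin d => (⊤ : Con S)) (⊤ : Con S))
    (h1 : ∀ ε, ε ≠ (fun _ => true) → c (ε, false) = c (ε, true)) :
    c (fun _ => true, false) = c (fun _ => true, true) := by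
  have := centralizes_comm (fun _ : Fin d => (⊤ : Con S)) (⊤ : Con S) c hc fun ε hε => by
    rw [h1 ε hε]
    exact Con.refl _ _
  have h2 : comm (fun _ : Fin d => (⊤ : Con S)) (⊤ : Con S) = ⊥ := h
  rw [h2] at this
  exact this

theorem thue_law (h : Supernilpotent S d) (A B : S) : (thue d A B).1 = (thue d A B).2 := by
  have := h.apply (ev_mem A B (W d)) (ev_eq d A B)
  rw [(ev_one d A B).1, (ev_one d A B).2] at this
  exact this.symm

theorem ore (h : Supernilpotent S d) (A B : S) : ∃ u v : S, u * A = v * B := by
  obtain ⟨u, v, h1 | h1⟩ := thue_ends d A B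
  · exact ⟨u, v, by rw [← h1.1, ← h1.2, thue_law h]⟩
  · exact ⟨v, u, by rw [← h1.1, ← h1.2, thue_law h]⟩

theorem prod_ite_eq (a : S) (L : List (Fin d)) (ε : Fin d → Bool) :
    ∃ k, (L.map fun i => if ε i then (1 : S) else a).prod = a ^ k ∧
      ((∃ i ∈ L, ε i = false) → 1 ≤ k) ∧ ((∀ i ∈ L, ε i = true) → k = 0) := by
  induction L with
  | nil => exact ⟨0, by simp⟩
  | cons i L ih =>
    obtain ⟨k, h1, h2, h3⟩ := ih
    cases h : ε i with
    | false =>
      refine ⟨k + 1, ?_, fun _ => by omega, fun hc => ?_⟩
      · simp [h, h1, pow_succ']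
      · have := hc i (by simp); rw [h] at this; exact absurd this (by simp)
    | true =>
      refine ⟨k, ?_, fun ⟨j, hj, hj2⟩ => ?_, fun hc => h3 fun j hj => hc j (by simp [hj])⟩
      · simp [h, h1]
      · rw [List.mem_cons] at hj
        rcases hj with rfl | hj
        · rw [h] at hj2; exact absurd hj2 (by simp)
        · exact h2 ⟨j, hj, hj2⟩

theorem left_cancel (h : Supernilpotent S d) {a x y : S} (hxy : a * x = a * y) : x = y := by
  let c : Idx d → S := fun z => ((List.finRange d).map fun i => if z.1 i then (1 : S) else a).prod *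
    (if z.2 then y else x)
  have hc : c ∈ Mat (fun _ : Fin d => (⊤ : Con S)) (⊤ : Con S) := by
    have key : c = ((List.finRange d).map fun i => fun z : Idx d =>
        if z.1 i then (1 : S) else a).prod * (fun z => if z.2 then y else x) := by
      funext z
      rw [Pi.mul_apply, Pi.list_prod_apply, List.map_map]
      rfl
    rw [key]
    refine mul_mem (list_prod_mem fun c hc => ?_) (dir_mem none x y)
    rw [List.mem_map] at hc
    obtain ⟨i, _, rfl⟩ := hc
    exact dir_mem (some i) a 1
  have h1 := h.apply hc fun ε hε => by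
    obtain ⟨k, e1, e2, -⟩ := prod_ite_eq a (List.finRange d) ε
    have : ∃ i, ε i = false := by
      by_contra hcon
      push Not at hcon
      exact hε (funext fun i => by simpa using hcon i)
    obtain ⟨i, hi⟩ := this
    have hk := e2 ⟨i, List.mem_finRange i, hi⟩
    obtain ⟨k, rfl⟩ : ∃ j, k = j + 1 := ⟨k - 1, by omega⟩
    show _ * (if false then y else x) = _ * (if true then y else x)
    simp only [e1, pow_succ, mul_assoc, Bool.false_eq_true, if_false, if_true, hxy]
  have h2 : ∀ b : Bool, c (fun _ => true, b) = if b then y else x := by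
    intro b
    obtain ⟨k, e1, -, e3⟩ := prod_ite_eq a (List.finRange d) (fun _ => true)
    have hk := e3 fun _ _ => rfl
    subst hk
    show _ * (if b then y else x) = _
    rw [e1, pow_zero, one_mul]
  rw [h2, h2] at h1
  simpa using h1

theorem right_cancel (h : Supernilpotent S d) {a x y : S} (hxy : x * a = y * a) : x = y := by
  let c : Idx d → S := fun z => (if z.2 then y else x) *
    ((List.finRange d).map fun i => if z.1 i then (1 : S) else a).prod
  have hc : c ∈ Mat (fun _ : Fin d => (⊤ : Con S)) (⊤ : Con S) := by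
    have key : c = (fun z => if z.2 then y else x) * ((List.finRange d).map fun i =>
        fun z : Idx d => if z.1 i then (1 : S) else a).prod := by
      funext z
      rw [Pi.mul_apply, Pi.list_prod_apply, List.map_map]
      rfl
    rw [key]
    refine mul_mem (dir_mem none x y) (list_prod_mem fun c hc => ?_)
    rw [List.mem_map] at hc
    obtain ⟨i, _, rfl⟩ := hc
    exact dir_mem (some i) a 1
  have h1 := h.apply hc fun ε hε => by
    obtain ⟨k, e1, e2, -⟩ := prod_ite_eq a (List.finRange d) ε
    have : ∃ i, ε i = false := by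
      by_contra hcon
      push Not at hcon
      exact hε (funext fun i => by simpa using hcon i)
    obtain ⟨i, hi⟩ := this
    have hk := e2 ⟨i, List.mem_finRange i, hi⟩
    obtain ⟨k, rfl⟩ : ∃ j, k = j + 1 := ⟨k - 1, by omega⟩
    show (if false then y else x) * _ = (if true then y else x) * _
    simp only [e1, pow_succ', ← mul_assoc, Bool.false_eq_true, if_false, if_true, hxy]
  have h2 : ∀ b : Bool, c (fun _ => true, b) = if b then y else x := by
    intro b
    obtain ⟨k, e1, -, e3⟩ := prod_ite_eq a (List.finRange d) (fun _ => true)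
    have hk := e3 fun _ _ => rfl
    subst hk
    show (if b then y else x) * _ = _
    rw [e1, pow_zero, mul_one]
  rw [h2, h2] at h1
  simpa using h1

end Monoid

end Pool.Agent.Q327.SN
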