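import Pool.Agent.Q327.SN.Gadget

/-!
Groups of fractions and nilpotence.
-/

set_option autoImplicit false

namespace Pool.Agent.Q327.SN

section Dir

variable {S : Type*} [Semigroup S] {d : ℕ}

theorem dirS_mem (o : Option (Fin d)) (a b : S) :
    (fun x : Idx d => if coord x o then b else a) ∈
      Mat (fun _ : Fin d => (⊤ : Con S)) (⊤ : Con S) := by
  apply Subsemigroup.subset_closure
  cases o with
  | none => exact Or.inr ⟨a, b, trivial, rfl⟩
  | some i => exact Or.inl ⟨i, a, b, trivial, rfl⟩

/-- induction for the matrices in `M(1, …, 1)` -/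
theorem mat_induction {P : (Idx d → S) → Prop}
    (h1 : ∀ (o : Option (Fin d)) (a b : S), P (fun x => if coord x o then b else a))
    (h2 : ∀ c c' : Idx d → S, P c → P c' → P (c * c')) {c : Idx d → S}
    (hc : c ∈ Mat (fun _ : Fin d => (⊤ : Con S)) (⊤ : Con S)) : P c := by
  induction hc using Subsemigroup.closure_induction with
  | mem c hc =>
    rcases hc with ⟨i, a, b, -, rfl⟩ | ⟨a, b, -, rfl⟩
    · exact h1 (some i) a b
    · exact h1 none a b
  | mul c c' _ _ h h' => exact h2 c c' h h'

end Dir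

section Fractions

variable {S G : Type*} [Semigroup S] [Group G] {d : ℕ} (ι : S →ₙ* G)

/-- move a factor to the other side of a matrix -/
theorem move (hore : ∀ a b : S, ∃ u v : S, u * a = v * b) {c : Idx d → S}
    (hc : c ∈ Mat (fun _ : Fin d => (⊤ : Con S)) (⊤ : Con S)) (t : S) :
    ∃ (s : S) (c' : Idx d → S), c' ∈ Mat (fun _ : Fin d => (⊤ : Con S)) (⊤ : Con S) ∧
      ∀ x, s * c x = c' x * t := by
  revert t
  refine mat_induction (P := fun c => ∀ t : S, ∃ (s : S) (c' : Idx d → S),
      c' ∈ Mat (fun _ : Fin d => (⊤ : Con S)) (⊤ : Con S) ∧ ∀ x, s * c x = c' x * t) ?_ ?_ hc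
  · intro o a b t
    obtain ⟨u1, v1, h1⟩ := hore a t
    obtain ⟨u2, v2, h2⟩ := hore (u1 * b) t
    refine ⟨u2 * u1, fun x => if coord x o then v2 else u2 * v1, dirS_mem o _ _, fun x => ?_⟩
    show u2 * u1 * (if coord x o then b else a) = (if coord x o then v2 else u2 * v1) * t
    cases coord x o
    · simp only [Bool.false_eq_true, if_false]
      rw [mul_assoc, h1, mul_assoc]
    · simp only [if_true]
      rw [mul_assoc, h2]
  · intro c1 c2 h1 h2 t
    obtain ⟨s2, c2', hm2, e2⟩ := h2 t
    obtain ⟨s1, c1', hm1, e1⟩ := h1 s2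
    refine ⟨s1, c1' * c2', mul_mem hm1 hm2, fun x => ?_⟩
    rw [Pi.mul_apply, Pi.mul_apply, ← mul_assoc, e1, mul_assoc, e2, mul_assoc]

/-- a matrix over the group has a common left denominator -/
theorem denominator (hore : ∀ a b : S, ∃ u v : S, u * a = v * b)
    (hfrac : ∀ g : G, ∃ s r : S, ι s * g = ι r) {c : Idx d → G}
    (hc : c ∈ Mat (fun _ : Fin d => (⊤ : Con G)) (⊤ : Con G)) :
    ∃ (s : S) (c' : Idx d → S), c' ∈ Mat (fun _ : Fin d => (⊤ : Con S)) (⊤ : Con S) ∧
      ∀ x, ι s * c x = ι (c' x) := by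
  refine mat_induction (P := fun c => ∃ (s : S) (c' : Idx d → S),
      c' ∈ Mat (fun _ : Fin d => (⊤ : Con S)) (⊤ : Con S) ∧ ∀ x, ι s * c x = ι (c' x)) ?_ ?_ hc
  · intro o g h
    obtain ⟨s1, r1, h1⟩ := hfrac g
    obtain ⟨s2, r2, h2⟩ := hfrac (ι s1 * h)
    refine ⟨s2 * s1, fun x => if coord x o then r2 else s2 * r1, dirS_mem o _ _, fun x => ?_⟩
    show ι (s2 * s1) * (if coord x o then h else g) = ι (if coord x o then r2 else s2 * r1)
    cases coord x o
    · simp only [Bool.false_eq_true, if_false, map_mul]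
      rw [mul_assoc, h1]
    · simp only [if_true, map_mul]
      rw [mul_assoc, h2]
  · rintro c1 c2 ⟨s1, c1', hm1, e1⟩ ⟨s2, c2', hm2, e2⟩
    obtain ⟨s3, c1'', hm3, e3⟩ := move hore hm1 s2
    refine ⟨s3 * s1, c1'' * c2', mul_mem hm3 hm2, fun x => ?_⟩
    rw [Pi.mul_apply, Pi.mul_apply, map_mul, map_mul, ← e2, mul_assoc, ← mul_assoc (ι s1), e1,
      ← mul_assoc, ← map_mul, e3, map_mul, mul_assoc]

/-- the group of fractions inherits the term condition -/
theorem group_term (hore : ∀ a b : S, ∃ u v : S, u * a = v * b)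
    (hfrac : ∀ g : G, ∃ s r : S, ι s * g = ι r)
    (hterm : ∀ c ∈ Mat (fun _ : Fin d => (⊤ : Con S)) (⊤ : Con S),
      (∀ ε, ε ≠ (fun _ => true) → ι (c (ε, false)) = ι (c (ε, true))) →
      ι (c (fun _ => true, false)) = ι (c (fun _ => true, true))) {c : Idx d → G}
    (hc : c ∈ Mat (fun _ : Fin d => (⊤ : Con G)) (⊤ : Con G))
    (h : ∀ ε, ε ≠ (fun _ => true) → c (ε, false) = c (ε, true)) :
    c (fun _ => true, false) = c (fun _ => true, true) := by
  obtain ⟨s, c', hm, e⟩ := denominator ι hore hfrac hc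
  have := hterm c' hm fun ε hε => by rw [← e, ← e, h ε hε]
  rw [← e, ← e] at this
  exact mul_left_cancel this

end Fractions

section Nilp

variable {G : Type*} [Group G] {d : ℕ}

theorem inv_mem_mat {c : Idx d → G}
    (hc : c ∈ Mat (fun _ : Fin d => (⊤ : Con G)) (⊤ : Con G)) :
    c⁻¹ ∈ Mat (fun _ : Fin d => (⊤ : Con G)) (⊤ : Con G) := by
  refine mat_induction (P := fun c => c⁻¹ ∈ Mat (fun _ : Fin d => (⊤ : Con G)) (⊤ : Con G))
    ?_ ?_ hc
  · intro o a b
    have : (fun x : Idx d => if coord x o then b else a)⁻¹ =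
        fun x => if coord x o then b⁻¹ else a⁻¹ := by
      funext x
      rw [Pi.inv_apply]
      cases coord x o <;> rfl
    rw [this]
    exact dir_mem o a⁻¹ b⁻¹
  · intro c c' h h'
    rw [mul_inv_rev]
    exact mul_mem h' h

/-- the commutator -/
def cm {H : Type*} [Group H] (x y : H) : H := x * y * x⁻¹ * y⁻¹

theorem cm_one_left {H : Type*} [Group H] (y : H) : cm 1 y = 1 := by simp [cm]

theorem cm_one_right {H : Type*} [Group H] (y : H) : cm y 1 = 1 := by simp [cm]

/-- iterated commutators as a matrix -/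
def icm (g : Fin d → G) (x : G) (L : List (Fin d)) : Idx d → G :=
  L.foldl (fun c j => cm c (fun i => if i.1 j then g j else 1)) (fun i => if i.2 then x else 1)

theorem icm_mem (g : Fin d → G) (L : List (Fin d)) (c : Idx d → G)
    (hc : c ∈ Mat (fun _ : Fin d => (⊤ : Con G)) (⊤ : Con G)) :
    L.foldl (fun c j => cm c (fun i => if i.1 j then g j else 1)) c ∈
      Mat (fun _ : Fin d => (⊤ : Con G)) (⊤ : Con G) := by
  induction L generalizing c with
  | nil => exact hc
  | cons j L ih =>
    rw [List.foldl_cons]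
    apply ih
    have h2 : (fun i : Idx d => if i.1 j then g j else 1) ∈
        Mat (fun _ : Fin d => (⊤ : Con G)) (⊤ : Con G) := dir_mem (some j) 1 (g j)
    exact mul_mem (mul_mem (mul_mem hc h2) (inv_mem_mat hc)) (inv_mem_mat h2)

theorem foldl_apply (g : Fin d → G) (L : List (Fin d)) (c : Idx d → G) (i : Idx d) :
    (L.foldl (fun c j => cm c (fun i => if i.1 j then g j else 1)) c) i =
      L.foldl (fun y j => cm y (if i.1 j then g j else 1)) (c i) := by
  induction L generalizing c with
  | nil => rfl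
  | cons j L ih =>
    rw [List.foldl_cons, ih, List.foldl_cons]
    rfl

theorem foldl_one (g : Fin d → G) (L : List (Fin d)) (ε : Fin d → Bool) :
    L.foldl (fun y j => cm y (if ε j then g j else 1)) (1 : G) = 1 := by
  induction L with
  | nil => rfl
  | cons j L ih => rw [List.foldl_cons, cm_one_left, ih]

theorem foldl_eq_one (g : Fin d → G) (L : List (Fin d)) (ε : Fin d → Bool) (y : G) {j : Fin d}
    (hj : j ∈ L) (h : ε j = false) :
    L.foldl (fun y j => cm y (if ε j then g j else 1)) y = 1 := by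
  induction L generalizing y with
  | nil => simp at hj
  | cons k L ih =>
    rw [List.foldl_cons]
    rw [List.mem_cons] at hj
    rcases hj with rfl | hj
    · rw [h]
      simp only [Bool.false_eq_true, if_false, cm_one_right]
      exact foldl_one g L ε
    · exact ih _ hj

theorem icomm_eq_one (hterm : ∀ c ∈ Mat (fun _ : Fin d => (⊤ : Con G)) (⊤ : Con G),
      (∀ ε, ε ≠ (fun _ => true) → c (ε, false) = c (ε, true)) →
      c (fun _ => true, false) = c (fun _ => true, true)) (x : G) (g : Fin d → G) :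
    (List.finRange d).foldl (fun y j => cm y (g j)) x = 1 := by
  have h1 := hterm (icm g x (List.finRange d)) (icm_mem g _ _ (dir_mem none 1 x)) ?_
  · unfold icm at h1
    rw [foldl_apply, foldl_apply] at h1
    simp only [Bool.false_eq_true, if_false, if_true] at h1
    rw [← h1]
    have := foldl_one g (List.finRange d) (fun _ => true)
    simpa using this
  · intro ε hε
    unfold icm
    rw [foldl_apply, foldl_apply]
    simp only [Bool.false_eq_true, if_false, if_true]
    have : ∃ i, ε i = false := by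
      by_contra hcon
      push Not at hcon
      exact hε (funext fun i => by simpa using hcon i)
    obtain ⟨i, hi⟩ := this
    rw [foldl_one, foldl_eq_one g _ ε x (List.mem_finRange i) hi]

theorem mem_ucs_of_foldl : ∀ (n : ℕ) (x : G),
    (∀ l : List G, l.length = n → l.foldl (fun y z => cm y z) x = 1) →
    x ∈ Subgroup.upperCentralSeries G n
  | 0, x, h => by
    have := h [] rfl
    rw [Subgroup.upperCentralSeries_zero, Subgroup.mem_bot]
    exact this
  | n + 1, x, h => by
    rw [Subgroup.mem_upperCentralSeries_succ_iff]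
    intro y
    exact mem_ucs_of_foldl n _ fun l hl => h (y :: l) (by simp [hl])

theorem ucs_eq_top (hterm : ∀ c ∈ Mat (fun _ : Fin d => (⊤ : Con G)) (⊤ : Con G),
      (∀ ε, ε ≠ (fun _ => true) → c (ε, false) = c (ε, true)) →
      c (fun _ => true, false) = c (fun _ => true, true)) :
    Subgroup.upperCentralSeries G d = ⊤ := by
  rw [eq_top_iff]
  intro x _
  refine mem_ucs_of_foldl d x fun l hl => ?_
  subst hl
  have h := icomm_eq_one hterm x (fun j => l.get j)
  rw [← h]
  have e : l = (List.finRange l.length).map l.get := by simp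
  conv_lhs => rw [e]
  rw [List.foldl_map]

end Nilp

end Pool.Agent.Q327.SN
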