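import Pool.Agent.Q327.SN.Dual
import Pool.Agent.Q327.SN.Frac

/-!
Supernilpotent semigroups: the local groups of fractions.
-/

set_option autoImplicit false

namespace Pool.Agent.Q327.SN

universe u

namespace Dat

variable {M : Type u} [Monoid M] {d : ℕ} (E : Dat M d)

/-- the elements that can be put on the left -/
def Lft (e : M) : Set M := {A | A ∈ P E.I (N d) ∧ Rr A e}

/-- the elements that can be put on the right -/
def Rgt (e : M) : Set M := {B | B ∈ P E.I (N d) ∧ Rl B e}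

theorem mul_mem_Lft {e A : M} (hA : A ∈ E.Lft e) (m : M) : A * m ∈ E.Lft e :=
  ⟨E.P_mul_right hA.1 m, E.Rr_trans (Rr.mul A m) hA.2 hA.1⟩

theorem mul_mem_Rgt {e B : M} (hB : B ∈ E.Rgt e) (m : M) : m * B ∈ E.Rgt e :=
  ⟨E.P_mul_left hB.1 m, E.Rl_trans (Rl.mul m B) hB.2 hB.1⟩

/-- the elements that have common left multiples and common right multiples with `e` -/
def Qs (e : M) : Subsemigroup M where
  carrier := {x | x ∈ E.Lft e ∧ x ∈ E.Rgt e}
  mul_mem' := fun ha hb => ⟨E.mul_mem_Lft ha.1 _, E.mul_mem_Rgt hb.2 _⟩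

theorem mem_Qs {e x : M} : x ∈ E.Qs e ↔ x ∈ E.Lft e ∧ x ∈ E.Rgt e := Iff.rfl

theorem AmB {e A B : M} (hA : A ∈ E.Lft e) (hB : B ∈ E.Rgt e) (m : M) : A * m * B ∈ E.Qs e :=
  ⟨by rw [mul_assoc]; exact E.mul_mem_Lft hA _, E.mul_mem_Rgt hB _⟩

theorem self_Lft {e : M} (he : e ∈ P E.I (N d)) : e ∈ E.Lft e := ⟨he, Rr.refl e⟩

theorem self_Rgt {e : M} (he : e ∈ P E.I (N d)) : e ∈ E.Rgt e := ⟨he, Rl.refl e⟩

theorem Qs_right {e : M} (he : e ∈ P E.I (N d)) {x y : M} (hx : x ∈ P E.I (N d))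
    (hy : y ∈ P E.I (N d)) (h : Rr x y) : ∃ u ∈ E.Qs e, ∃ v ∈ E.Qs e, x * u = y * v := by
  obtain ⟨β, β', h⟩ := E.ore_right hx hy h e
  exact ⟨_, E.AmB (E.self_Lft he) (E.self_Rgt he) _, _,
    E.AmB (E.self_Lft he) (E.self_Rgt he) _, h⟩

theorem Qs_left {e : M} (he : e ∈ P E.I (N d)) {x y : M} (hx : x ∈ P E.I (N d))
    (hy : y ∈ P E.I (N d)) (h : Rl x y) : ∃ u ∈ E.Qs e, ∃ v ∈ E.Qs e, u * x = v * y := by
  obtain ⟨β, β', h⟩ := E.ore_left hx hy h e
  exact ⟨_, E.AmB (E.self_Lft he) (E.self_Rgt he) _, _,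
    E.AmB (E.self_Lft he) (E.self_Rgt he) _, h⟩

theorem exists_local {e : M} (he : e ∈ P E.I (N d)) :
    ∃ (H : Type u) (_ : Group H) (g : M → H),
      (∀ x ∈ E.Qs e, ∀ y ∈ E.Qs e, g (x * y) = g x * g y) ∧
      (∀ x ∈ E.Qs e, ∀ y ∈ E.Qs e, g x = g y → ∃ a ∈ E.Qs e, ∃ b ∈ E.Qs e, a * x * b = a * y * b) ∧
      Subgroup.upperCentralSeries H d = ⊤ := by
  classical
  have : Nonempty (E.Qs e) := ⟨⟨e, E.self_Lft he, E.self_Rgt he⟩⟩
  have hl : ∀ a b : E.Qs e, ∃ u v, u * a = v * b := by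
    rintro ⟨a, ha⟩ ⟨b, hb⟩
    obtain ⟨u, hu, v, hv, h⟩ := E.Qs_left he ha.1.1 hb.1.1
      (E.Rl_trans ha.2.2 hb.2.2.symm he)
    exact ⟨⟨u, hu⟩, ⟨v, hv⟩, Subtype.ext h⟩
  have hr : ∀ a b : E.Qs e, ∃ u v, a * u = b * v := by
    rintro ⟨a, ha⟩ ⟨b, hb⟩
    obtain ⟨u, hu, v, hv, h⟩ := E.Qs_right he ha.1.1 hb.1.1
      (E.Rr_trans ha.1.2 hb.1.2.symm he)
    exact ⟨⟨u, hu⟩, ⟨v, hv⟩, Subtype.ext h⟩
  obtain ⟨H, _, γ, h1, h2⟩ := exists_nilp_group (d := d) hl hr (by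
    intro c hc h
    have hc' : (fun x => (c x : M)) ∈ MatI E.I d := by
      refine mat_induction (P := fun c : Idx d → E.Qs e => (fun x => (c x : M)) ∈ MatI E.I d)
        ?_ ?_ hc
      · intro o a b
        refine Subsemigroup.subset_closure ⟨o, a, E.P_pos (N_pos d) a.2.1.1, b,
          E.P_pos (N_pos d) b.2.1.1, ?_⟩
        funext x
        show ((if coord x o then b else a : E.Qs e) : M) = if coord x o then (b : M) else a
        split_ifs <;> rfl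
      · intro c c' h h'
        exact mul_mem h h'
    exact Subtype.ext (E.term _ hc' fun ε hε => congrArg Subtype.val (h ε hε)))
  refine ⟨H, inferInstance, fun x => if h : x ∈ E.Qs e then γ ⟨x, h⟩ else 1, ?_, ?_, h2⟩
  · intro x hx y hy
    beta_reduce
    rw [dif_pos hx, dif_pos hy, dif_pos (mul_mem hx hy), ← map_mul]
    rfl
  · intro x hx y hy h
    beta_reduce at h
    rw [dif_pos hx, dif_pos hy, h1] at h
    obtain ⟨a, b, h⟩ := h
    exact ⟨a, a.2, b, b.2, congrArg Subtype.val h⟩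

/-- the data of a local group of fractions -/
structure Local (e : M) (H : Type u) [Group H] where
  he : e ∈ P E.I (N d)
  g : M → H
  mul : ∀ x ∈ E.Qs e, ∀ y ∈ E.Qs e, g (x * y) = g x * g y
  eq : ∀ x ∈ E.Qs e, ∀ y ∈ E.Qs e, g x = g y → ∃ a ∈ E.Qs e, ∃ b ∈ E.Qs e, a * x * b = a * y * b
  top : Subgroup.upperCentralSeries H d = ⊤

theorem exists_Local : ∃ (e : M) (H : Type u) (_ : Group H), Nonempty (E.Local e H) := by
  obtain ⟨e, he⟩ := E.exists_P (N d)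
  obtain ⟨H, _, g, h1, h2, h3⟩ := E.exists_local he
  exact ⟨e, H, inferInstance, ⟨⟨he, g, h1, h2, h3⟩⟩⟩

variable {e : M} {H : Type u} [Group H] (F : E.Local e H)

theorem Local.right_indep {c c' : M} (hc : c ∈ P E.I (N d)) (hc' : c' ∈ P E.I (N d))
    (h : Rr c c') {B : M} (hB : B ∈ E.Rgt e) :
    ∃ z : H, ∀ A ∈ E.Lft e, F.g (A * c' * B) = F.g (A * c * B) * z := by
  have h1 : Rr (c * B) (c' * B) :=
    E.Rr_trans (E.Rr_trans (Rr.mul c B) h hc) (Rr.mul c' B).symm hc'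
  obtain ⟨u, hu, v, hv, h2⟩ := E.Qs_right F.he (E.P_mul_right hc B) (E.P_mul_right hc' B) h1
  refine ⟨F.g u * (F.g v)⁻¹, fun A hA => ?_⟩
  have h3 : F.g (A * c * B) * F.g u = F.g (A * c' * B) * F.g v := by
    rw [← F.mul _ (E.AmB hA hB c) _ hu, ← F.mul _ (E.AmB hA hB c') _ hv]
    congr 1
    calc A * c * B * u = A * (c * B * u) := by simp only [mul_assoc]
      _ = A * c' * B * v := by rw [h2]; simp only [mul_assoc]
  rw [← mul_assoc, h3, mul_inv_cancel_right]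

theorem Local.left_indep {c c' : M} (hc : c ∈ P E.I (N d)) (hc' : c' ∈ P E.I (N d))
    (h : Rl c c') {A : M} (hA : A ∈ E.Lft e) :
    ∃ z : H, ∀ B ∈ E.Rgt e, F.g (A * c' * B) = z * F.g (A * c * B) := by
  have h1 : Rl (A * c) (A * c') :=
    E.Rl_trans (E.Rl_trans (Rl.mul A c) h hc) (Rl.mul A c').symm hc'
  obtain ⟨u, hu, v, hv, h2⟩ := E.Qs_left F.he (E.P_mul_left hc A) (E.P_mul_left hc' A) h1
  refine ⟨(F.g v)⁻¹ * F.g u, fun B hB => ?_⟩
  have h3 : F.g u * F.g (A * c * B) = F.g v * F.g (A * c' * B) := by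
    rw [← F.mul _ hu _ (E.AmB hA hB c), ← F.mul _ hv _ (E.AmB hA hB c')]
    congr 1
    calc u * (A * c * B) = u * (A * c) * B := by simp only [mul_assoc]
      _ = v * (A * c' * B) := by rw [h2]; simp only [mul_assoc]
  rw [mul_assoc (F.g v)⁻¹, h3, inv_mul_cancel_left]

theorem pow_mem_P {e : M} (he : e ∈ P E.I (N d)) (k : ℕ) : e ^ k ∈ P E.I k := by
  induction k with
  | zero => trivial
  | succ k ih =>
    rw [pow_succ]
    exact E.P_mul ih (E.P_anti (N_pos d) he)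

/-- **Elements that agree in the local group agree after deep multiplication.** -/
theorem Local.lemmaA {x y : M} (hx : x ∈ P E.I (N d)) (hy : y ∈ P E.I (N d)) (hr : Rr x y)
    (hl : Rl x y) (h : F.g (e * x * e) = F.g (e * y * e)) {s t : M}
    (hs : s ∈ P E.I (N d + d)) (ht : t ∈ P E.I (N d + d)) : s * x * t = s * y * t := by
  obtain ⟨a, ha, b, hb, h1⟩ := F.eq _ (E.AmB (E.self_Lft F.he) (E.self_Rgt F.he) x) _
    (E.AmB (E.self_Lft F.he) (E.self_Rgt F.he) y) h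
  obtain ⟨k, hk⟩ : ∃ k, k = N d + d + 1 := ⟨_, rfl⟩
  have h2 : (e ^ k * a * e * x) * (e * b) = (e ^ k * a * e * y) * (e * b) := by
    calc (e ^ k * a * e * x) * (e * b) = e ^ k * (a * (e * x * e) * b) := by
          simp only [mul_assoc]
      _ = (e ^ k * a * e * y) * (e * b) := by rw [h1]; simp only [mul_assoc]
  have h3 : Rl (e ^ k * a * e * x) (e ^ k * a * e * y) :=
    E.Rl_trans (E.Rl_trans (Rl.mul _ x) hl hx) (Rl.mul _ y).symm hy
  have hk' : e ^ k ∈ P E.I k := E.pow_mem_P F.he k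
  have h4 : (e ^ k * a * e * x) * t = (e ^ k * a * e * y) * t := by
    refine E.unif (E.P_mul_left hx _) ?_ h3 h2 ht
    rw [mul_assoc, mul_assoc, ← hk]
    exact E.P_mul_right hk' _
  have h5 : Rr (x * t) (y * t) :=
    E.Rr_trans (E.Rr_trans (Rr.mul x t) hr hx) (Rr.mul y t).symm hy
  have h6 : s * (x * t) = s * (y * t) := by
    refine E.unif' (s0 := e ^ k * a * e) (E.P_mul_right hx t) ?_ h5 ?_ hs
    · have := E.P_mul (E.P_anti (N_pos d) hy) ht
      rwa [add_comm 1] at this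
    · simpa only [mul_assoc] using h4
  rw [mul_assoc, h6, mul_assoc]

end Dat

end Pool.Agent.Q327.SN
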