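import Pool.Agent.Q327.SN.Group

/-!
Subsemigroups of nilpotent groups are left and right nilpotent; supernilpotent monoids.
-/

set_option autoImplicit false

namespace Pool.Agent.Q327.SN

section Mono

variable {S : Type*} [Semigroup S] {m : ℕ}

theorem Mat_mono {α α' : Fin m → Con S} {β β' : Con S} (h : ∀ i, α i ≤ α' i) (h' : β ≤ β') :
    Mat α β ≤ Mat α' β' := by
  apply Subsemigroup.closure_mono
  rintro c (⟨i, a, b, hab, rfl⟩ | ⟨a, b, hab, rfl⟩)
  · exact Or.inl ⟨i, a, b, h i hab, rfl⟩
  · exact Or.inr ⟨a, b, h' hab, rfl⟩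

theorem Centralizes.mono {α α' : Fin m → Con S} {β β' δ : Con S} (h : ∀ i, α i ≤ α' i)
    (h' : β ≤ β') (hc : Centralizes α' β' δ) : Centralizes α β δ :=
  fun c hm h1 => hc c (Mat_mono h h' hm) h1

end Mono

section Sub

variable {S G : Type*} [Semigroup S] [Group G] (ι : S →ₙ* G)

/-- congruence modulo a normal subgroup -/
def modN (N : Subgroup G) [N.Normal] : Con S :=
  Con.ker ((QuotientGroup.mk' N).toMulHom.comp ι)

theorem modN_iff (N : Subgroup G) [N.Normal] (x y : S) :
    modN ι N x y ↔ (QuotientGroup.mk (ι x) : G ⧸ N) = QuotientGroup.mk (ι y) := Iff.rfl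

theorem central_of_mem {k : ℕ} {g : G} (hg : g ∈ Subgroup.upperCentralSeries G (k + 1)) (h : G) :
    (QuotientGroup.mk (g * h) : G ⧸ Subgroup.upperCentralSeries G k) = QuotientGroup.mk (h * g) := by
  rw [Subgroup.mem_upperCentralSeries_succ_iff] at hg
  rw [QuotientGroup.eq]
  have h3 := hg h
  have h4 := (inferInstance : (Subgroup.upperCentralSeries G k).Normal).conj_mem _ h3 ((g * h)⁻¹)
  have e5 : (g * h)⁻¹ * (h * g) = ((g * h)⁻¹ * (g * h * g⁻¹ * h⁻¹) * (g * h)⁻¹⁻¹)⁻¹ := by
    group
  rw [e5]
  exact inv_mem h4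

/-- `z` is central in `G ⧸ Z_k` -/
def Cen (k : ℕ) (z : G ⧸ Subgroup.upperCentralSeries G k) : Prop := ∀ y, z * y = y * z

theorem cen_of_mod {k : ℕ} {x y : S} (h : modN ι (Subgroup.upperCentralSeries G (k + 1)) x y) :
    ∃ z : G ⧸ Subgroup.upperCentralSeries G k, Cen k z ∧
      (QuotientGroup.mk (ι y) : G ⧸ Subgroup.upperCentralSeries G k) = QuotientGroup.mk (ι x) * z := by
  refine ⟨QuotientGroup.mk ((ι x)⁻¹ * ι y), ?_, ?_⟩
  · intro w
    induction w using QuotientGroup.induction_on with
    | H w =>
      rw [← QuotientGroup.mk_mul, ← QuotientGroup.mk_mul]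
      rw [modN_iff, QuotientGroup.eq] at h
      exact central_of_mem h w
  · rw [← QuotientGroup.mk_mul]
    congr 1
    group

theorem left_step (k : ℕ) : Centralizes (fun _ : Fin 1 => (⊤ : Con S))
    (modN ι (Subgroup.upperCentralSeries G (k + 1))) (modN ι (Subgroup.upperCentralSeries G k)) := by
  intro c hc h
  have key : ∃ z : G ⧸ Subgroup.upperCentralSeries G k, Cen k z ∧ ∀ ε : Fin 1 → Bool,
      (QuotientGroup.mk (ι (c (ε, true))) : G ⧸ Subgroup.upperCentralSeries G k) =
        QuotientGroup.mk (ι (c (ε, false))) * z := by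
    clear h
    induction hc using Subsemigroup.closure_induction with
    | mem c hc =>
      rcases hc with ⟨i, a, b, -, rfl⟩ | ⟨a, b, hab, rfl⟩
      · exact ⟨1, fun y => by simp, fun ε => by simp⟩
      · obtain ⟨z, hz, e⟩ := cen_of_mod ι hab
        exact ⟨z, hz, fun ε => by simpa using e⟩
    | mul c c' _ _ h h' =>
      obtain ⟨z, hz, e⟩ := h
      obtain ⟨z', hz', e'⟩ := h'
      refine ⟨z * z', fun y => by rw [mul_assoc, hz' y, ← mul_assoc, hz y, mul_assoc], fun ε => ?_⟩
      rw [Pi.mul_apply, Pi.mul_apply, map_mul, map_mul, QuotientGroup.mk_mul, QuotientGroup.mk_mul,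
        e, e', mul_assoc, mul_assoc, ← mul_assoc z, hz, mul_assoc]
  obtain ⟨z, hz, e⟩ := key
  have h0 : (fun _ => false : Fin 1 → Bool) ≠ fun _ => true := fun hc => by
    have := congrFun hc 0
    exact absurd this (by simp)
  have h1 := h _ h0
  rw [modN_iff, e] at h1
  have hz1 : z = 1 := by simpa using h1.symm
  rw [modN_iff, e, hz1, mul_one]

theorem right_step (k : ℕ) : Centralizes
    (fun _ : Fin 1 => modN ι (Subgroup.upperCentralSeries G (k + 1))) (⊤ : Con S)
    (modN ι (Subgroup.upperCentralSeries G k)) := by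
  intro c hc h
  have key : ∃ z : G ⧸ Subgroup.upperCentralSeries G k, Cen k z ∧ ∀ b : Bool,
      (QuotientGroup.mk (ι (c (fun _ => true, b))) : G ⧸ Subgroup.upperCentralSeries G k) =
        QuotientGroup.mk (ι (c (fun _ => false, b))) * z := by
    clear h
    induction hc using Subsemigroup.closure_induction with
    | mem c hc =>
      rcases hc with ⟨i, a, b, hab, rfl⟩ | ⟨a, b, -, rfl⟩
      · obtain ⟨z, hz, e⟩ := cen_of_mod ι hab
        exact ⟨z, hz, fun ε => by simpa using e⟩
      · exact ⟨1, fun y => by simp, fun ε => by simp⟩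
    | mul c c' _ _ h h' =>
      obtain ⟨z, hz, e⟩ := h
      obtain ⟨z', hz', e'⟩ := h'
      refine ⟨z * z', fun y => by rw [mul_assoc, hz' y, ← mul_assoc, hz y, mul_assoc], fun ε => ?_⟩
      rw [Pi.mul_apply, Pi.mul_apply, map_mul, map_mul, QuotientGroup.mk_mul, QuotientGroup.mk_mul,
        e, e', mul_assoc, mul_assoc, ← mul_assoc z, hz, mul_assoc]
  obtain ⟨z, hz, e⟩ := key
  have h0 : (fun _ => false : Fin 1 → Bool) ≠ fun _ => true := fun hc => by
    have := congrFun hc 0
    exact absurd this (by simp)
  have h1 := h _ h0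
  rw [modN_iff] at h1
  rw [modN_iff, e, e, h1]

theorem series_le {d : ℕ} (hG : Subgroup.upperCentralSeries G d = ⊤) (n : ℕ) (hn : n ≤ d) :
    leftSeries S n ≤ modN ι (Subgroup.upperCentralSeries G (d - n)) ∧
      rightSeries S n ≤ modN ι (Subgroup.upperCentralSeries G (d - n)) := by
  induction n with
  | zero =>
    have h1 : ∀ x y : S, modN ι (Subgroup.upperCentralSeries G (d - 0)) x y := by
      intro x y
      rw [modN_iff, QuotientGroup.eq]
      have : Subgroup.upperCentralSeries G (d - 0) = ⊤ := by simpa using hG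
      rw [this]
      exact Subgroup.mem_top _
    exact ⟨fun {x y} _ => h1 x y, fun {x y} _ => h1 x y⟩
  | succ n ih =>
    obtain ⟨ih1, ih2⟩ := ih (by omega)
    have e : d - n = d - (n + 1) + 1 := by omega
    constructor
    · refine comm_le ((left_step ι (d - (n + 1))).mono (fun _ => le_rfl) ?_)
      have : modN ι (Subgroup.upperCentralSeries G (d - n)) ≤
          modN ι (Subgroup.upperCentralSeries G (d - (n + 1) + 1)) := by
        intro x y hxy
        rw [modN_iff, QuotientGroup.eq] at hxy ⊢
        rwa [← e]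
      exact ih1.trans this
    · refine comm_le ((right_step ι (d - (n + 1))).mono (fun _ => ?_) le_rfl)
      have : modN ι (Subgroup.upperCentralSeries G (d - n)) ≤
          modN ι (Subgroup.upperCentralSeries G (d - (n + 1) + 1)) := by
        intro x y hxy
        rw [modN_iff, QuotientGroup.eq] at hxy ⊢
        rwa [← e]
      exact ih2.trans this

theorem nilpotent_of_embedding {d : ℕ} (hι : Function.Injective ι)
    (hG : Subgroup.upperCentralSeries G d = ⊤) : LeftNilpotent S d ∧ RightNilpotent S d := by
  obtain ⟨h1, h2⟩ := series_le ι hG d le_rfl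
  have h3 : modN ι (Subgroup.upperCentralSeries G (d - d)) ≤ ⊥ := by
    intro x y hxy
    rw [modN_iff, QuotientGroup.eq, Nat.sub_self, Subgroup.upperCentralSeries_zero,
      Subgroup.mem_bot] at hxy
    exact hι (inv_mul_eq_one.mp hxy)
  exact ⟨le_antisymm (h1.trans h3) bot_le, le_antisymm (h2.trans h3) bot_le⟩

end Sub

section Main

universe u

variable {S : Type u} [Monoid S] {d : ℕ}

open OreLocalization

/-- the Ore set of all elements -/
@[instance_reducible] noncomputable def oreTop (h : Supernilpotent S d) : OreSet (⊤ : Submonoid S) where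
  ore_right_cancel := fun r₁ r₂ s hs => ⟨1, by
    rw [right_cancel h hs]⟩
  oreNum := fun r s => (ore h r s).choose_spec.choose
  oreDenom := fun r s => ⟨(ore h r s).choose, trivial⟩
  ore_eq := fun r s => (ore h r s).choose_spec.choose_spec

/-- **Supernilpotent monoids embed into nilpotent groups.** -/
theorem exists_embedding (h : Supernilpotent S d) :
    ∃ (G : Type u) (_ : Group G) (ι : S →* G), Function.Injective ι ∧
      Subgroup.upperCentralSeries G d = ⊤ := by
  letI := oreTop h
  have hunit : ∀ x : OreLocalization (⊤ : Submonoid S) S, IsUnit x := by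
    intro x
    induction x using OreLocalization.ind with
    | _ r s =>
      have h1 := numerator_isUnit (⟨r, trivial⟩ : (⊤ : Submonoid S))
      have h2 := numerator_isUnit s
      have h3 : numeratorHom (s : S) * (r /ₒ s) = numeratorHom r := by
        rw [numeratorHom_apply, numeratorHom_apply]
        exact OreLocalization.mul_cancel
      have h4 : IsUnit (numeratorHom (s : S) * (r /ₒ s)) := by
        rw [h3]; exact h1
      exact (h2.mul_left_iff).mp h4 
  letI : Group (OreLocalization (⊤ : Submonoid S) S) := groupOfIsUnit hunit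
  have hinj : Function.Injective
      (numeratorHom : S →* OreLocalization (⊤ : Submonoid S) S) := by
    intro r r' hr
    rw [numeratorHom_apply, numeratorHom_apply, oreDiv_eq_iff] at hr
    obtain ⟨u, v, h1, h2⟩ := hr
    have e : (u : S) = v := by simpa using h2
    have h3 : (u : S) * r' = v * r := h1
    rw [← e] at h3
    exact (left_cancel h h3).symm
  refine ⟨OreLocalization (⊤ : Submonoid S) S, inferInstance, numeratorHom, hinj, ?_⟩
  apply ucs_eq_top
  intro c hc hc1
  refine group_term (numeratorHom : S →* OreLocalization (⊤ : Submonoid S) S).toMulHom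
    (ore h) ?_ ?_ hc hc1
  · intro g
    induction g using OreLocalization.ind with
    | _ r s =>
      refine ⟨s, r, ?_⟩
      show numeratorHom (s : S) * (r /ₒ s) = numeratorHom r
      rw [numeratorHom_apply, numeratorHom_apply]
      exact OreLocalization.mul_cancel
  · intro c hc hc2
    have := h.apply hc fun ε hε => hinj (hc2 ε hε)
    rw [this]

/-- **Supernilpotent monoids are left and right nilpotent.** -/
theorem monoid_main (h : Supernilpotent S d) : LeftNilpotent S d ∧ RightNilpotent S d := by
  obtain ⟨G, _, ι, hι, hG⟩ := exists_embedding h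
  exact nilpotent_of_embedding ι.toMulHom hι hG

end Main

end Pool.Agent.Q327.SN
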