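import Pool.Agent.Q327.SN.Core

/-!
Supernilpotent semigroups: common multiples and the closure lemma.
-/

set_option autoImplicit false

namespace Pool.Agent.Q327.SN

theorem thue_begins {S : Type*} [Monoid S] : ∀ (d : ℕ) (A B : S), ∃ u v : S,
    (thue d A B).1 = A * u ∧ (thue d A B).2 = B * v
  | 0, A, B => ⟨1, 1, by simp [thue], by simp [thue]⟩
  | d + 1, A, B => by
    obtain ⟨u, v, h1, h2⟩ := thue_begins d (A * B) (B * A)
    exact ⟨B * u, A * v, by rw [thue, h1, mul_assoc], by rw [thue, h2, mul_assoc]⟩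

/-- common right multiples -/
def Rr {M : Type*} [Monoid M] (x y : M) : Prop := ∃ u v : M, x * u = y * v

/-- common left multiples -/
def Rl {M : Type*} [Monoid M] (x y : M) : Prop := ∃ u v : M, u * x = v * y

/-- the number of slots -/
def N (d : ℕ) : ℕ := (W d).length

theorem N_pos (d : ℕ) : 1 ≤ N d := by
  unfold N
  by_contra hc
  have hc : (W d).length = 0 := by omega
  rw [List.length_eq_zero_iff] at hc
  have h5 := (ev_one (S := ℕ) d 2 3)
  rw [hc, ev_nil, ev_nil] at h5
  obtain ⟨u, v, h6, h7⟩ := thue_begins d 2 3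
  rw [h6] at h5
  have := h5.2
  omega

section

variable {M : Type*} [Monoid M] {d : ℕ} (E : Dat M d)

theorem Rr.symm {x y : M} (h : Rr x y) : Rr y x := by
  obtain ⟨u, v, h⟩ := h
  exact ⟨v, u, h.symm⟩

theorem Rl.symm {x y : M} (h : Rl x y) : Rl y x := by
  obtain ⟨u, v, h⟩ := h
  exact ⟨v, u, h.symm⟩

theorem Rr.refl (x : M) : Rr x x := ⟨1, 1, rfl⟩

theorem Rl.refl (x : M) : Rl x x := ⟨1, 1, rfl⟩

theorem Rr.mul (x m : M) : Rr (x * m) x := ⟨1, m, by rw [mul_one]⟩

theorem Rl.mul (m x : M) : Rl (m * x) x := ⟨1, m, by rw [one_mul]⟩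

theorem Rr.left {x y : M} (h : Rr x y) (m : M) : Rr (m * x) (m * y) := by
  obtain ⟨u, v, h⟩ := h
  exact ⟨u, v, by rw [mul_assoc, h, mul_assoc]⟩

theorem Rl.right {x y : M} (h : Rl x y) (m : M) : Rl (x * m) (y * m) := by
  obtain ⟨u, v, h⟩ := h
  exact ⟨u, v, by rw [← mul_assoc, h, mul_assoc]⟩

namespace Dat

/-- **Claim A.** -/
theorem claimA {T : M} (hT : T ∈ P E.I (N d)) (X Y : M) :
    ∃ u v : M, T * X * T * u = T * Y * T * v := by
  have h := E.term _ (E.pad_mem X Y T (N d) T hT 1 (by rw [one_mul]) (W d) rfl E.o E.ho) ?_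
  · rw [(ev_one d (X * T) (Y * T)).1, (ev_one d (X * T) (Y * T)).2] at h
    obtain ⟨u, v, h1, h2⟩ := thue_begins d (X * T) (Y * T)
    refine ⟨u * E.o, v * E.o, ?_⟩
    rw [h1, h2] at h
    simp only [mul_assoc] at h ⊢
    exact h.symm
  · intro ε hε
    rw [ev_eq d _ _ ε hε]

theorem Rr_deep {T : M} (hT : T ∈ P E.I (N d)) (X Y : M) : Rr (T * X) (T * Y) := by
  obtain ⟨u, v, h⟩ := E.claimA hT X Y
  exact ⟨T * u, T * v, by simpa only [mul_assoc] using h⟩

theorem Rr_trans {x y z : M} (h : Rr x y) (h' : Rr y z) (hy : y ∈ P E.I (N d)) : Rr x z := by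
  obtain ⟨u, v, e⟩ := h
  obtain ⟨u', v', e'⟩ := h'
  obtain ⟨a, b, h1⟩ := E.Rr_deep hy v u'
  refine ⟨u * a, v' * b, ?_⟩
  rw [← mul_assoc, e, h1, e', mul_assoc]

/-- auxiliary statement for the closure lemma -/
theorem first_zero (t0 : M) : ∀ (n : ℕ) (p : M) (r τ : Fin n → M),
    (∀ i : Fin n, ∃ m, p * ((List.ofFn r).take i).prod * τ i = t0 * m) →
    ∀ ε : Fin n → Bool, ε ≠ (fun _ => true) →
      ∃ m, p * (List.ofFn fun i => if ε i then r i else τ i).prod = t0 * m
  | 0, p, r, τ, _, ε, hε => absurd (Subsingleton.elim _ _) hε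
  | n + 1, p, r, τ, h, ε, hε => by
    rw [List.ofFn_succ, List.prod_cons]
    cases h0 : ε 0 with
    | false =>
      obtain ⟨m, hm⟩ := h 0
      refine ⟨m * (List.ofFn fun i : Fin n => if ε i.succ then r i.succ else τ i.succ).prod, ?_⟩
      simp only [Fin.val_zero, List.take_zero, List.prod_nil, mul_one] at hm
      rw [← mul_assoc, ← mul_assoc, ← hm]
      simp
    | true =>
      have h1 := first_zero t0 n (p * r 0) (fun i => r i.succ) (fun i => τ i.succ) ?_
        (fun i => ε i.succ) ?_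
      · obtain ⟨m, hm⟩ := h1
        refine ⟨m, ?_⟩
        rw [← hm]
        simp only [if_true, mul_assoc]
      · intro i
        obtain ⟨m, hm⟩ := h i.succ
        refine ⟨m, ?_⟩
        rw [← hm, List.ofFn_succ, Fin.val_succ, List.take_succ_cons, List.prod_cons]
        simp only [mul_assoc]
      · intro hc
        apply hε
        funext i
        exact Fin.cases h0 (fun j => congrFun hc j) i

theorem ofFn_prod_mem (n : ℕ) (dir : Fin n → Option (Fin d)) (r τ : Fin n → M)
    (hr : ∀ i, r i ∈ E.I) (hτ : ∀ i, τ i ∈ E.I) (c : Idx d → M) (hc : c ∈ MatI E.I d) :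
    (fun x => c x * (List.ofFn fun i => if coord x (dir i) then r i else τ i).prod) ∈
      MatI E.I d := by
  induction n generalizing c with
  | zero => simpa using hc
  | succ n ih =>
    have h1 : (c * fun x => if coord x (dir 0) then r 0 else τ 0) ∈ MatI E.I d :=
      mul_mem hc (E.dirI_mem _ (hτ 0) (hr 0))
    have h2 := ih (fun i => dir i.succ) (fun i => r i.succ) (fun i => τ i.succ)
      (fun i => hr _) (fun i => hτ _) _ h1
    convert h2 using 2 with x
    rw [List.ofFn_succ, List.prod_cons, Pi.mul_apply, mul_assoc]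

theorem P_ofFn (n : ℕ) {r : M} (hr : r ∈ P E.I n) :
    ∃ (f : Fin n → M) (m : M), (∀ i, f i ∈ E.I) ∧ r = (List.ofFn f).prod * m := by
  induction n generalizing r with
  | zero => exact ⟨Fin.elim0, r, fun i => i.elim0, by simp⟩
  | succ n ih =>
    obtain ⟨a, ha, p, hp, rfl⟩ := hr
    obtain ⟨f, m, hf, rfl⟩ := ih hp
    refine ⟨Fin.cons a f, m, fun i => Fin.cases (by simpa using ha) (by simpa using hf) i, ?_⟩
    rw [List.ofFn_succ, List.prod_cons]
    simp [mul_assoc]

/-- **The closure lemma.** -/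
theorem lemmaD {x y t0 t : M} (hx : x ∈ E.I) (hy : y ∈ E.I) (h0 : x * t0 = y * t0)
    (ht : t ∈ P E.I (N d + d)) (hr : Rr t t0) : x * t = y * t := by
  obtain ⟨β, hβ, r, hr', rfl⟩ := E.P_split ht
  obtain ⟨f, m, hf, rfl⟩ := E.P_ofFn d hr'
  have hβ0 : Rr β t0 := E.Rr_trans (Rr.mul β _).symm hr (E.P_mul_right hβ _)
  have h1 : ∀ i : Fin d, ∃ τ ∈ E.I, ∃ m, β * ((List.ofFn f).take i).prod * τ = t0 * m := by
    intro i
    obtain ⟨u, v, e⟩ := E.Rr_trans (Rr.mul β ((List.ofFn f).take i).prod) hβ0 hβ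
    exact ⟨u * E.o, E.left _ E.ho u, v * E.o, by rw [← mul_assoc, e, mul_assoc]⟩
  choose τ hτ m' hm' using h1
  let c : Idx d → M := fun z => (if coord z none then y * β else x * β) *
    (List.ofFn fun i => if coord z (some i) then f i else τ i).prod
  have hc : c ∈ MatI E.I d := E.ofFn_prod_mem d (fun i => some i) f τ hf hτ _
    (E.dirI_mem none (E.right x hx β) (E.right y hy β))
  have h2 := E.term c hc ?_
  · have e1 : ∀ b : Bool, c (fun _ => true, b) = (if b then y * β else x * β) *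
        (List.ofFn f).prod := by
      intro b
      show (if b then y * β else x * β) * (List.ofFn fun i => if true then f i else τ i).prod = _
      simp
    rw [e1, e1] at h2
    simp only [Bool.false_eq_true, if_false, if_true] at h2
    rw [← mul_assoc, ← mul_assoc, ← mul_assoc, ← mul_assoc, h2]
  · intro ε hε
    obtain ⟨m, hm⟩ := first_zero t0 d β f τ (fun i => ⟨m' i, hm' i⟩) ε hε
    show x * β * (List.ofFn fun i => if ε i then f i else τ i).prod =
      y * β * (List.ofFn fun i => if ε i then f i else τ i).prod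
    rw [mul_assoc, mul_assoc, hm, ← mul_assoc, h0, mul_assoc]

/-- common right multiples with factors that begin and end with `e` -/
theorem ore_right {X Y : M} (hX : X ∈ P E.I (N d)) (hY : Y ∈ P E.I (N d)) (h : Rr X Y) (e : M) :
    ∃ β β' : M, X * (e * β * e) = Y * (e * β' * e) := by
  obtain ⟨u, v, h1⟩ := h
  obtain ⟨p, q, h2⟩ := E.claimA hX e u
  obtain ⟨p', q', h3⟩ := E.claimA hY e (v * X * q)
  refine ⟨X * p * Y * q', Y * p', ?_⟩
  have h4 : X * (e * (X * p * Y * q')) = Y * (e * (Y * p')) := by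
    calc X * (e * (X * p * Y * q')) = (X * e * X * p) * (Y * q') := by simp only [mul_assoc]
      _ = X * u * (X * q * (Y * q')) := by rw [h2]; simp only [mul_assoc]
      _ = Y * v * (X * q * (Y * q')) := by rw [h1]
      _ = Y * (v * X * q) * Y * q' := by simp only [mul_assoc]
      _ = Y * e * Y * p' := h3.symm
      _ = Y * (e * (Y * p')) := by simp only [mul_assoc]
  have h5 := congrArg (· * e) h4
  simpa only [mul_assoc] using h5

/-- **Uniformity.** -/
theorem uniform {x y t0 t : M} (hx : x ∈ P E.I (N d)) (hy : y ∈ P E.I (N d + d + 1))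
    (hl : Rl x y) (h0 : x * t0 = y * t0) (ht : t ∈ P E.I (N d + d))
    (hD' : ∀ x y s0 s : M, x ∈ E.I → y ∈ E.I → s0 * x = s0 * y → s ∈ P E.I (N d + d) →
      Rl s s0 → s * x = s * y) : x * t = y * t := by
  obtain ⟨u, v, e⟩ := E.claimA hx t0 t
  obtain ⟨y', hy', y'', hy'', rfl⟩ := E.P_split hy
  obtain ⟨a, b, hab⟩ := hl
  rw [E.mem_P_one] at hy''
  have h1 : y' * (y'' * t0 * x * u) = y' * (y'' * t * x * v) := by
    apply hD' _ _ (b * y') y' _ _ _ hy' (Rl.mul b y').symm
    · rw [mul_assoc, mul_assoc]; exact E.right _ hy'' _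
    · rw [mul_assoc, mul_assoc]; exact E.right _ hy'' _
    · calc b * y' * (y'' * t0 * x * u) = (b * (y' * y'')) * (t0 * x * u) := by
            simp only [mul_assoc]
        _ = a * (x * t0 * x * u) := by rw [← hab]; simp only [mul_assoc]
        _ = a * (x * t * x * v) := by rw [e]
        _ = (a * x) * (t * x * v) := by simp only [mul_assoc]
        _ = b * y' * (y'' * t * x * v) := by rw [hab]; simp only [mul_assoc]
  have h2 : x * (t * x * v) = y' * y'' * (t * x * v) := by
    calc x * (t * x * v) = x * t * x * v := by simp only [mul_assoc]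
      _ = x * t0 * x * u := e.symm
      _ = y' * y'' * t0 * x * u := by rw [h0]
      _ = y' * (y'' * t0 * x * u) := by simp only [mul_assoc]
      _ = y' * (y'' * t * x * v) := h1
      _ = y' * y'' * (t * x * v) := by simp only [mul_assoc]
  have hxI : x ∈ E.I := E.P_pos (N_pos d) hx
  refine E.lemmaD hxI (E.left _ hy'' _) h2 ht ?_
  exact ⟨x * v, 1, by simp only [mul_assoc, mul_one]⟩

end Dat

end

end Pool.Agent.Q327.SN
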