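import Pool.Agent.Q327.SN.Loc

/-!
Supernilpotent semigroups: a descending chain of congruences.
-/

set_option autoImplicit false

namespace Pool.Agent.Q327.SN

section Chain

variable {S : Type*} [Semigroup S]

/-- a congruence from one-sided compatibility -/
def mkCon (r : S → S → Prop) (he : Equivalence r) (hl : ∀ z x y, r x y → r (z * x) (z * y))
    (hr : ∀ z x y, r x y → r (x * z) (y * z)) : Con S :=
  ⟨⟨r, he⟩, fun {_ x y _} h h' => he.trans (hr y _ _ h) (hl x _ _ h')⟩

set_option inductive.autoPromoteIndices false in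
/-- generators of the matrices -/
inductive G2 (β : Con S) : S → S → S → S → Prop
  | row (p q : S) : G2 β p p q q
  | col (p q : S) (h : β p q) : G2 β p q p q

/-- matrices, products of generators from left to right -/
inductive KL (β : Con S) : S → S → S → S → Prop
  | gen {a b c d : S} (h : G2 β a b c d) : KL β a b c d
  | mul {p q r s a b c d : S} (g : G2 β p q r s) (h : KL β a b c d) :
      KL β (p * a) (q * b) (r * c) (s * d)

/-- matrices, products of generators from right to left -/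
inductive KR (β : Con S) : S → S → S → S → Prop
  | gen {a b c d : S} (h : G2 β a b c d) : KR β a b c d
  | mul {p q r s a b c d : S} (g : G2 β p q r s) (h : KR β a b c d) :
      KR β (a * p) (b * q) (c * r) (d * s)

theorem KL.mul' {β : Con S} {a b c d a' b' c' d' : S} (h : KL β a b c d)
    (h' : KL β a' b' c' d') : KL β (a * a') (b * b') (c * c') (d * d') := by
  induction h with
  | gen g => exact KL.mul g h'
  | mul g _ ih =>
    have := KL.mul g ih
    simpa only [mul_assoc] using this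

theorem KR.mul' {β : Con S} {a b c d a' b' c' d' : S} (h : KR β a b c d)
    (h' : KR β a' b' c' d') : KR β (a * a') (b * b') (c * c') (d * d') := by
  induction h' with
  | gen g => exact KR.mul g h
  | mul g _ ih =>
    have := KR.mul g ih
    simpa only [mul_assoc] using this

theorem KR.toKL {β : Con S} {a b c d : S} (h : KR β a b c d) : KL β a b c d := by
  induction h with
  | gen g => exact KL.gen g
  | mul g _ ih => exact ih.mul' (KL.gen g)

theorem KL.toKR {β : Con S} {a b c d : S} (h : KL β a b c d) : KR β a b c d := by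
  induction h with
  | gen g => exact KR.gen g
  | mul g _ ih => exact (KR.gen g).mul' ih

theorem KL.rel {β : Con S} {a b c d : S} (h : KL β a b c d) : β a b ∧ β c d := by
  induction h with
  | gen g =>
    cases g with
    | row p q => exact ⟨β.refl _, β.refl _⟩
    | col p q h => exact ⟨h, h⟩
  | mul g _ ih =>
    cases g with
    | row p q => exact ⟨β.mul (β.refl _) ih.1, β.mul (β.refl _) ih.2⟩
    | col p q h => exact ⟨β.mul h ih.1, β.mul h ih.2⟩

/-- `[1, β] ≤ δ` and `[β, 1] ≤ δ` -/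
def Red (β δ : Con S) : Prop :=
  ∀ a b c d, KL β a b c d → (δ a b → δ c d) ∧ (δ a c → δ b d)

theorem Red.left {β δ : Con S} (h : Red β δ) :
    Centralizes (fun _ : Fin 1 => (⊤ : Con S)) β δ := by
  intro c hc
  have key : KL β (c (fun _ => false, false)) (c (fun _ => false, true))
      (c (fun _ => true, false)) (c (fun _ => true, true)) := by
    induction hc using Subsemigroup.closure_induction with
    | mem c hc =>
      rcases hc with ⟨i, a, b, -, rfl⟩ | ⟨a, b, hab, rfl⟩
      · exact KL.gen (G2.row a b)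
      · exact KL.gen (G2.col a b hab)
    | mul c c' _ _ h h' => exact h.mul' h'
  intro h0
  refine (h _ _ _ _ key).1 (h0 _ fun hc => ?_)
  have := congrFun hc 0
  exact absurd this (by simp)

theorem Red.right {β δ : Con S} (h : Red β δ) :
    Centralizes (fun _ : Fin 1 => β) (⊤ : Con S) δ := by
  intro c hc
  have key : KL β (c (fun _ => false, false)) (c (fun _ => true, false))
      (c (fun _ => false, true)) (c (fun _ => true, true)) := by
    induction hc using Subsemigroup.closure_induction with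
    | mem c hc =>
      rcases hc with ⟨i, a, b, hab, rfl⟩ | ⟨a, b, -, rfl⟩
      · exact KL.gen (G2.col a b hab)
      · exact KL.gen (G2.row a b)
    | mul c c' _ _ h h' => exact h.mul' h'
  intro h0
  refine (h _ _ _ _ key).2 (h0 _ fun hc => ?_)
  have := congrFun hc 0
  exact absurd this (by simp)

theorem Red.self (β : Con S) : Red β β := by
  intro a b c d h
  obtain ⟨h1, h2⟩ := h.rel
  exact ⟨fun _ => h2, fun h3 => β.trans (β.symm h1) (β.trans h3 h2)⟩

/-- the `n`-th terms of both series are contained in `β` -/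
def Lvl (n : ℕ) (β : Con S) : Prop := leftSeries S n ≤ β ∧ rightSeries S n ≤ β

theorem Lvl.step {n : ℕ} {β δ : Con S} (h : Lvl n β) (hr : Red β δ) : Lvl (n + 1) δ :=
  ⟨comm_le (hr.left.mono (fun _ => le_rfl) h.1), comm_le (hr.right.mono (fun _ => h.2) le_rfl)⟩

theorem Lvl.keep {n : ℕ} {β : Con S} (h : Lvl n β) : Lvl (n + 1) β := h.step (Red.self β)

theorem Lvl.keeps {n : ℕ} {β : Con S} (h : Lvl n β) (k : ℕ) : Lvl (n + k) β := by
  induction k with
  | zero => exact h
  | succ k ih => exact ih.keep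

theorem Lvl.inf {n : ℕ} {β δ : Con S} (h : Lvl n β) (h' : Lvl n δ) : Lvl n (β ⊓ δ) :=
  ⟨le_inf h.1 h'.1, le_inf h.2 h'.2⟩

theorem Lvl.mono {n : ℕ} {β δ : Con S} (h : Lvl n β) (h' : β ≤ δ) : Lvl n δ :=
  ⟨h.1.trans h', h.2.trans h'⟩

theorem Red.of {β δ : Con S}
    (h1 : ∀ p q a b c d, KL β a b c d → (δ (p * a) (p * b) → δ (q * c) (q * d)) ∧
      (δ (p * a) (q * c) → δ (p * b) (q * d)))
    (h2 : ∀ p q, β p q → ∀ a b c d, KL β a b c d → (δ (p * a) (q * b) → δ (p * c) (q * d)) ∧
      (δ (p * a) (p * c) → δ (q * b) (q * d))) : Red β δ := by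
  intro a b c d h
  cases h with
  | gen g =>
    cases g with
    | row p q => exact ⟨fun _ => δ.refl _, fun h => h⟩
    | col p q h => exact ⟨fun h => h, fun _ => δ.refl _⟩
  | mul g h =>
    cases g with
    | row p q => exact h1 _ _ _ _ _ _ h
    | col p q h' => exact h2 _ _ h' _ _ _ _ h

theorem Red.of' {β δ : Con S}
    (h1 : ∀ p q a b c d, KL β a b c d → (δ (a * p) (b * p) → δ (c * q) (d * q)) ∧
      (δ (a * p) (c * q) → δ (b * p) (d * q)))
    (h2 : ∀ p q, β p q → ∀ a b c d, KL β a b c d → (δ (a * p) (b * q) → δ (c * p) (d * q)) ∧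
      (δ (a * p) (c * p) → δ (b * q) (d * q))) : Red β δ := by
  intro a b c d h
  cases h.toKR with
  | gen g =>
    cases g with
    | row p q => exact ⟨fun _ => δ.refl _, fun h => h⟩
    | col p q h => exact ⟨fun h => h, fun _ => δ.refl _⟩
  | mul g h' =>
    cases g with
    | row p q => exact h1 _ _ _ _ _ _ h'.toKL
    | col p q h'' => exact h2 _ _ h'' _ _ _ _ h'.toKL

theorem both {δ : Con S} {a b c d : S} (h1 : δ a b) (h2 : δ c d) :
    (δ a b → δ c d) ∧ (δ a c → δ b d) :=
  ⟨fun _ => h2, fun h3 => δ.trans (δ.symm h1) (δ.trans h3 h2)⟩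

end Chain

section Steps

variable {S M : Type*} [Semigroup S] [Monoid M] {d : ℕ} (E : Dat M d) (ι : S →ₙ* M)
  (hι : ∀ x, ι x ∈ E.I)

namespace Dat

/-- equal or deep -/
def Dp (m : ℕ) : Con S :=
  mkCon (fun x y => ι x = ι y ∨ (ι x ∈ P E.I m ∧ ι y ∈ P E.I m))
    ⟨fun x => Or.inl rfl, by
      rintro x y (h | ⟨h1, h2⟩)
      · exact Or.inl h.symm
      · exact Or.inr ⟨h2, h1⟩, by
      rintro x y z (h | ⟨h1, h2⟩) (h' | ⟨h1', h2'⟩)
      · exact Or.inl (h.trans h')
      · exact Or.inr ⟨h ▸ h1', h2'⟩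
      · exact Or.inr ⟨h1, h' ▸ h2⟩
      · exact Or.inr ⟨h1, h2'⟩⟩
    (by
      rintro z x y (h | ⟨h1, h2⟩)
      · exact Or.inl (by rw [map_mul, map_mul, h])
      · exact Or.inr ⟨by rw [map_mul]; exact E.P_mul_left h1 _,
          by rw [map_mul]; exact E.P_mul_left h2 _⟩)
    (by
      rintro z x y (h | ⟨h1, h2⟩)
      · exact Or.inl (by rw [map_mul, map_mul, h])
      · exact Or.inr ⟨by rw [map_mul]; exact E.P_mul_right h1 _,
          by rw [map_mul]; exact E.P_mul_right h2 _⟩)

theorem Dp_iff {m : ℕ} {x y : S} :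
    E.Dp ι m x y ↔ (ι x = ι y ∨ (ι x ∈ P E.I m ∧ ι y ∈ P E.I m)) := Iff.rfl

include hι in
theorem Dp_one (x y : S) : E.Dp ι 1 x y :=
  Or.inr ⟨E.mem_P_one.mpr (hι x), E.mem_P_one.mpr (hι y)⟩

include hι in
theorem Dp_step (m : ℕ) : Red (E.Dp ι m) (E.Dp ι (m + 1)) := by
  have key : ∀ p a b, E.Dp ι m a b → E.Dp ι (m + 1) (p * a) (p * b) := by
    rintro p a b (h | ⟨h1, h2⟩)
    · exact Or.inl (by rw [map_mul, map_mul, h])
    · exact Or.inr ⟨by rw [map_mul]; exact ⟨ι p, hι p, ι a, h1, rfl⟩,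
        by rw [map_mul]; exact ⟨ι p, hι p, ι b, h2, rfl⟩⟩
  have key' : ∀ p a b, E.Dp ι m a b → E.Dp ι (m + 1) (a * p) (b * p) := by
    rintro p a b (h | ⟨h1, h2⟩)
    · exact Or.inl (by rw [map_mul, map_mul, h])
    · exact Or.inr ⟨by rw [map_mul]; exact E.P_mul h1 (E.mem_P_one.mpr (hι p)),
        by rw [map_mul]; exact E.P_mul h2 (E.mem_P_one.mpr (hι p))⟩
  refine Red.of ?_ ?_
  · intro p q a b c d h
    obtain ⟨h1, h2⟩ := h.rel
    exact both (key _ _ _ h1) (key _ _ _ h2)
  · intro p q hpq a b c d h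
    obtain ⟨h1, h2⟩ := h.rel
    exact both (Con.trans _ (key' _ _ _ hpq) (key _ _ _ h1))
      (Con.trans _ (key' _ _ _ hpq) (key _ _ _ h2))

/-- deep and with common right multiples, after multiplication on the left by `P k` -/
def RR (k : ℕ) : Con S :=
  mkCon (fun x y => ι x = ι y ∨ (ι x ∈ P E.I (N d) ∧ ι y ∈ P E.I (N d) ∧
      ∀ s ∈ P E.I k, Rr (s * ι x) (s * ι y)))
    ⟨fun x => Or.inl rfl, by
      rintro x y (h | ⟨h1, h2, h3⟩)
      · exact Or.inl h.symm
      · exact Or.inr ⟨h2, h1, fun s hs => (h3 s hs).symm⟩, by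
      rintro x y z (h | ⟨h1, h2, h3⟩) (h' | ⟨h1', h2', h3'⟩)
      · exact Or.inl (h.trans h')
      · exact Or.inr ⟨h ▸ h1', h2', fun s hs => h ▸ h3' s hs⟩
      · exact Or.inr ⟨h1, h' ▸ h2, fun s hs => h' ▸ h3 s hs⟩
      · exact Or.inr ⟨h1, h2', fun s hs => E.Rr_trans (h3 s hs) (h3' s hs) (E.P_mul_left h2 s)⟩⟩
    (by
      rintro z x y (h | ⟨h1, h2, h3⟩)
      · exact Or.inl (by rw [map_mul, map_mul, h])
      · refine Or.inr ⟨by rw [map_mul]; exact E.P_mul_left h1 _,
          by rw [map_mul]; exact E.P_mul_left h2 _, fun s hs => ?_⟩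
        rw [map_mul, map_mul, ← mul_assoc, ← mul_assoc]
        exact h3 _ (E.P_mul_right hs _))
    (by
      rintro z x y (h | ⟨h1, h2, h3⟩)
      · exact Or.inl (by rw [map_mul, map_mul, h])
      · refine Or.inr ⟨by rw [map_mul]; exact E.P_mul_right h1 _,
          by rw [map_mul]; exact E.P_mul_right h2 _, fun s hs => ?_⟩
        rw [map_mul, map_mul, ← mul_assoc, ← mul_assoc]
        exact E.Rr_trans (E.Rr_trans (Rr.mul _ _) (h3 s hs) (E.P_mul_left h1 s))
          (Rr.mul _ _).symm (E.P_mul_left h2 s))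

theorem Dp_le_RR : E.Dp ι (N d) ≤ E.RR ι (N d) := by
  rintro x y (h | ⟨h1, h2⟩)
  · exact Or.inl h
  · exact Or.inr ⟨h1, h2, fun s hs => E.Rr_deep hs _ _⟩

include hι in
theorem RR_step (k : ℕ) : Red (E.RR ι (k + 1)) (E.RR ι k) := by
  have key : ∀ p a b, E.RR ι (k + 1) a b → E.RR ι k (p * a) (p * b) := by
    rintro p a b (h | ⟨h1, h2, h3⟩)
    · exact Or.inl (by rw [map_mul, map_mul, h])
    · refine Or.inr ⟨by rw [map_mul]; exact E.P_mul_left h1 _,
        by rw [map_mul]; exact E.P_mul_left h2 _, fun s hs => ?_⟩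
      rw [map_mul, map_mul, ← mul_assoc, ← mul_assoc]
      exact h3 _ (E.P_mul hs (E.mem_P_one.mpr (hι p)))
  have cong : ∀ p q, ι p = ι q → ∀ a, E.RR ι k (p * a) (q * a) := by
    intro p q h a
    exact Or.inl (by rw [map_mul, map_mul, h])
  refine Red.of ?_ ?_
  · intro p q a b c d' h
    obtain ⟨h1, h2⟩ := h.rel
    exact both (key _ _ _ h1) (key _ _ _ h2)
  · intro p q hpq a b c d' h
    obtain ⟨h1, h2⟩ := h.rel
    rcases hpq with h3 | ⟨hp, hq, h3⟩
    · exact both (Con.trans _ (cong p q h3 a) (key _ _ _ h1))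
        (Con.trans _ (cong p q h3 c) (key _ _ _ h2))
    · constructor
      · intro h4
        refine Or.inr ⟨by rw [map_mul]; exact E.P_mul_right hp _,
          by rw [map_mul]; exact E.P_mul_right hq _, fun s hs => ?_⟩
        have h5 : Rr (s * ι (p * a)) (s * ι (q * b)) := by
          rcases h4 with h4 | ⟨_, _, h4⟩
          · rw [h4]; exact Rr.refl _
          · exact h4 s hs
        rw [map_mul, map_mul, ← mul_assoc, ← mul_assoc] at h5 ⊢
        have hsp : s * ι p ∈ P E.I (N d) := E.P_mul_left hp s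
        have hsq : s * ι q ∈ P E.I (N d) := E.P_mul_left hq s
        have h6 : Rr (s * ι p) (s * ι q) :=
          E.Rr_trans (E.Rr_trans (Rr.mul (s * ι p) (ι a)).symm h5 (E.P_mul_right hsp _))
            (Rr.mul _ _) (E.P_mul_right hsq _)
        exact E.Rr_trans (E.Rr_trans (Rr.mul _ _) h6 hsp) (Rr.mul _ _).symm hsq
      · intro _
        refine Or.inr ⟨by rw [map_mul]; exact E.P_mul_right hq _,
          by rw [map_mul]; exact E.P_mul_right hq _, fun s hs => ?_⟩
        rw [map_mul, map_mul, ← mul_assoc, ← mul_assoc]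
        have hsq : s * ι q ∈ P E.I (N d) := E.P_mul_left hq s
        exact E.Rr_trans (Rr.mul _ _) (Rr.mul _ _).symm hsq

/-- deep and with common left multiples, after multiplication on the right by `P k` -/
def LL (k : ℕ) : Con S :=
  mkCon (fun x y => ι x = ι y ∨ (ι x ∈ P E.I (N d) ∧ ι y ∈ P E.I (N d) ∧
      ∀ s ∈ P E.I k, Rl (ι x * s) (ι y * s)))
    ⟨fun x => Or.inl rfl, by
      rintro x y (h | ⟨h1, h2, h3⟩)
      · exact Or.inl h.symm
      · exact Or.inr ⟨h2, h1, fun s hs => (h3 s hs).symm⟩, by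
      rintro x y z (h | ⟨h1, h2, h3⟩) (h' | ⟨h1', h2', h3'⟩)
      · exact Or.inl (h.trans h')
      · exact Or.inr ⟨h ▸ h1', h2', fun s hs => h ▸ h3' s hs⟩
      · exact Or.inr ⟨h1, h' ▸ h2, fun s hs => h' ▸ h3 s hs⟩
      · exact Or.inr ⟨h1, h2', fun s hs => E.Rl_trans (h3 s hs) (h3' s hs) (E.P_mul_right h2 s)⟩⟩
    (by
      rintro z x y (h | ⟨h1, h2, h3⟩)
      · exact Or.inl (by rw [map_mul, map_mul, h])
      · refine Or.inr ⟨by rw [map_mul]; exact E.P_mul_left h1 _,
          by rw [map_mul]; exact E.P_mul_left h2 _, fun s hs => ?_⟩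
        rw [map_mul, map_mul, mul_assoc, mul_assoc]
        exact E.Rl_trans (E.Rl_trans (Rl.mul _ _) (h3 s hs) (E.P_mul_right h1 s))
          (Rl.mul _ _).symm (E.P_mul_right h2 s))
    (by
      rintro z x y (h | ⟨h1, h2, h3⟩)
      · exact Or.inl (by rw [map_mul, map_mul, h])
      · refine Or.inr ⟨by rw [map_mul]; exact E.P_mul_right h1 _,
          by rw [map_mul]; exact E.P_mul_right h2 _, fun s hs => ?_⟩
        rw [map_mul, map_mul, mul_assoc, mul_assoc]
        exact h3 _ (E.P_mul_left hs _))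

theorem Dp_le_LL : E.Dp ι (N d) ≤ E.LL ι (N d) := by
  rintro x y (h | ⟨h1, h2⟩)
  · exact Or.inl h
  · exact Or.inr ⟨h1, h2, fun s hs => E.Rl_deep hs _ _⟩

include hι in
theorem LL_step (k : ℕ) : Red (E.LL ι (k + 1)) (E.LL ι k) := by
  have key : ∀ p a b, E.LL ι (k + 1) a b → E.LL ι k (a * p) (b * p) := by
    rintro p a b (h | ⟨h1, h2, h3⟩)
    · exact Or.inl (by rw [map_mul, map_mul, h])
    · refine Or.inr ⟨by rw [map_mul]; exact E.P_mul_right h1 _,
        by rw [map_mul]; exact E.P_mul_right h2 _, fun s hs => ?_⟩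
      rw [map_mul, map_mul, mul_assoc, mul_assoc]
      exact h3 _ ⟨ι p, hι p, s, hs, rfl⟩
  have cong : ∀ p q, ι p = ι q → ∀ a, E.LL ι k (a * p) (a * q) := by
    intro p q h a
    exact Or.inl (by rw [map_mul, map_mul, h])
  refine Red.of' ?_ ?_
  · intro p q a b c d' h
    obtain ⟨h1, h2⟩ := h.rel
    exact both (key _ _ _ h1) (key _ _ _ h2)
  · intro p q hpq a b c d' h
    obtain ⟨h1, h2⟩ := h.rel
    rcases hpq with h3 | ⟨hp, hq, h3⟩
    · exact both (Con.trans _ (cong p q h3 a) (key _ _ _ h1))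
        (Con.trans _ (cong p q h3 c) (key _ _ _ h2))
    · constructor
      · intro h4
        refine Or.inr ⟨by rw [map_mul]; exact E.P_mul_left hp _,
          by rw [map_mul]; exact E.P_mul_left hq _, fun s hs => ?_⟩
        have h5 : Rl (ι (a * p) * s) (ι (b * q) * s) := by
          rcases h4 with h4 | ⟨_, _, h4⟩
          · rw [h4]; exact Rl.refl _
          · exact h4 s hs
        rw [map_mul, map_mul, mul_assoc, mul_assoc] at h5 ⊢
        have hsp : ι p * s ∈ P E.I (N d) := E.P_mul_right hp s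
        have hsq : ι q * s ∈ P E.I (N d) := E.P_mul_right hq s
        have h6 : Rl (ι p * s) (ι q * s) :=
          E.Rl_trans (E.Rl_trans (Rl.mul (ι a) (ι p * s)).symm h5 (E.P_mul_left hsp _))
            (Rl.mul _ _) (E.P_mul_left hsq _)
        exact E.Rl_trans (E.Rl_trans (Rl.mul _ _) h6 hsp) (Rl.mul _ _).symm hsq
      · intro _
        refine Or.inr ⟨by rw [map_mul]; exact E.P_mul_left hq _,
          by rw [map_mul]; exact E.P_mul_left hq _, fun s hs => ?_⟩
        rw [map_mul, map_mul, mul_assoc, mul_assoc]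
        have hsq : ι q * s ∈ P E.I (N d) := E.P_mul_right hq s
        exact E.Rl_trans (Rl.mul _ _) (Rl.mul _ _).symm hsq

/-- equal after multiplication by `P k` on the left and by `P l` on the right -/
def EE (k l : ℕ) : Con S :=
  mkCon (fun x y => ∀ s ∈ P E.I k, ∀ t ∈ P E.I l, s * ι x * t = s * ι y * t)
    ⟨fun x s _ t _ => rfl, fun h s hs t ht => (h s hs t ht).symm,
      fun h h' s hs t ht => (h s hs t ht).trans (h' s hs t ht)⟩
    (fun z x y h s hs t ht => by
      have := h (s * ι z) (E.P_mul_right hs _) t ht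
      simpa only [map_mul, mul_assoc] using this)
    (fun z x y h s hs t ht => by
      have := h s hs (ι z * t) (E.P_mul_left ht _)
      simpa only [map_mul, mul_assoc] using this)

/-- the congruence of deep elements with common multiples -/
def DD : Con S := E.Dp ι (N d + d + N d) ⊓ (E.RR ι 0 ⊓ E.LL ι 0)

theorem DD_iff {x y : S} (h : E.DD ι x y) : ι x = ι y ∨
    (ι x ∈ P E.I (N d + d + N d) ∧ ι y ∈ P E.I (N d + d + N d) ∧ Rr (ι x) (ι y) ∧
      Rl (ι x) (ι y)) := by
  obtain ⟨h1, h2, h3⟩ := h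
  rcases h1 with h1 | ⟨hx, hy⟩
  · exact Or.inl h1
  rcases h2 with h2 | ⟨_, _, h2⟩
  · exact Or.inl h2
  rcases h3 with h3 | ⟨_, _, h3⟩
  · exact Or.inl h3
  have h4 := h2 1 trivial
  have h5 := h3 1 trivial
  rw [one_mul, one_mul] at h4
  rw [mul_one, mul_one] at h5
  exact Or.inr ⟨hx, hy, h4, h5⟩

include hι in
theorem EE_left {k l : ℕ} {a b : S} (p : S) (h : E.EE ι (k + 1) l a b) :
    E.EE ι k l (p * a) (p * b) := by
  intro s hs t ht
  have := h (s * ι p) (E.P_mul hs (E.mem_P_one.mpr (hι p))) t ht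
  simpa only [map_mul, mul_assoc] using this

include hι in
theorem EE_right {k l : ℕ} {a b : S} (p : S) (h : E.EE ι k (l + 1) a b) :
    E.EE ι k l (a * p) (b * p) := by
  intro s hs t ht
  have := h s hs (ι p * t) ⟨ι p, hι p, t, ht, rfl⟩
  simpa only [map_mul, mul_assoc] using this

theorem EE_congr {k l : ℕ} {a b : S} (h : ι a = ι b) : E.EE ι k l a b :=
  fun s _ t _ => by rw [h]

theorem EE_anti {k l k' l' : ℕ} (hk : k ≤ k') (hl : l ≤ l') : E.EE ι k l ≤ E.EE ι k' l' :=
  fun {_ _} h s hs t ht => h s (E.P_anti hk hs) t (E.P_anti hl ht)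

include hι in
theorem I1 (k : ℕ) : Red (E.DD ι ⊓ E.EE ι (k + 1) (N d + d)) (E.EE ι k (N d + d)) := by
  have hN := N_pos d
  refine Red.of ?_ ?_
  · intro p q a b c d h
    obtain ⟨h1, h2⟩ := h.rel
    exact both (E.EE_left ι hι _ h1.2) (E.EE_left ι hι _ h2.2)
  · intro p q hpq a b c d' h
    obtain ⟨h1, h2⟩ := h.rel
    rcases E.DD_iff ι hpq.1 with h3 | ⟨hp, hq, hr, hl⟩
    · exact both (Con.trans _ (E.EE_congr ι (by rw [map_mul, map_mul, h3]))
          (E.EE_left ι hι q h1.2)) (Con.trans _ (E.EE_congr ι (by rw [map_mul, map_mul, h3]))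
          (E.EE_left ι hι q h2.2))
    · have hpN : ι p ∈ P E.I (N d) := E.P_anti (by omega) hp
      have hqN : ι q ∈ P E.I (N d) := E.P_anti (by omega) hq
      have hl' : ∀ s : M, Rl (s * ι p) (s * ι q) := fun s =>
        E.Rl_trans (E.Rl_trans (Rl.mul s (ι p)) hl hpN) (Rl.mul s (ι q)).symm hqN
      constructor
      · intro h4 s hs t ht
        have e1 := h4 s hs t ht
        have e2 := h1.2 (s * ι q) (E.P_mul hs (E.mem_P_one.mpr (hι q))) t ht
        have e3 := h2.2 (s * ι q) (E.P_mul hs (E.mem_P_one.mpr (hι q))) t ht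
        have e4 : (s * ι p) * (ι a * t) = (s * ι q) * (ι a * t) := by
          simp only [map_mul, mul_assoc] at e1 e2 ⊢
          rw [e1, e2]
        have e5 := E.unif (E.P_mul_left hpN s) (E.P_anti (by omega) (E.P_mul_left hq s)) (hl' s) e4
          (E.P_mul_left ht (ι c))
        simp only [map_mul, mul_assoc] at e3 e5 ⊢
        rw [e5, e3]
      · intro h4 s hs t ht
        have e1 := h4 s hs t ht
        have e2 := h1.2 (s * ι p) (E.P_mul hs (E.mem_P_one.mpr (hι p))) t ht
        have e3 := h2.2 (s * ι p) (E.P_mul hs (E.mem_P_one.mpr (hι p))) t ht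
        have e4 : (s * ι p) * (ι b * t) = (s * ι p) * (ι d' * t) := by
          simp only [map_mul, mul_assoc] at e1 e2 e3 ⊢
          rw [← e2, e1, e3]
        have e5 := E.lemmaD' (s := s * ι q) (E.right _ (hι b) t) (E.right _ (hι d') t) e4
          (E.P_anti (by omega) (E.P_mul_left hq s)) (hl' s).symm
        simp only [map_mul, mul_assoc] at e5 ⊢
        exact e5

include hι in
theorem I2a (l : ℕ) : Red (E.DD ι ⊓ E.EE ι 0 (l + 1)) (E.EE ι (N d + d) l) := by
  have hN := N_pos d
  have base : ∀ {a b : S} (p : S), E.EE ι 0 (l + 1) a b → E.EE ι (N d + d) l (a * p) (b * p) :=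
    fun p h => E.EE_anti ι (Nat.zero_le _) le_rfl (E.EE_right ι hι p h)
  refine Red.of' ?_ ?_
  · intro p q a b c d h
    obtain ⟨h1, h2⟩ := h.rel
    exact both (base _ h1.2) (base _ h2.2)
  · intro p q hpq a b c d' h
    obtain ⟨h1, h2⟩ := h.rel
    rcases E.DD_iff ι hpq.1 with h3 | ⟨hp, hq, hr, hl⟩
    · exact both (Con.trans _ (E.EE_congr ι (by rw [map_mul, map_mul, h3])) (base q h1.2))
        (Con.trans _ (E.EE_congr ι (by rw [map_mul, map_mul, h3])) (base q h2.2))
    · have hpN : ι p ∈ P E.I (N d) := E.P_anti (by omega) hp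
      have hqN : ι q ∈ P E.I (N d) := E.P_anti (by omega) hq
      have hr' : ∀ s : M, Rr (ι p * s) (ι q * s) := fun s =>
        E.Rr_trans (E.Rr_trans (Rr.mul (ι p) s) hr hpN) (Rr.mul (ι q) s).symm hqN
      constructor
      · intro h4 s hs t ht
        have e1 := h4 s hs t ht
        have e2 := h1.2 s trivial (ι p * t) ⟨ι p, hι p, t, ht, rfl⟩
        have e3 := h2.2 s trivial (ι p * t) ⟨ι p, hι p, t, ht, rfl⟩
        have e4 : (s * ι b) * (ι p * t) = (s * ι b) * (ι q * t) := by
          simp only [map_mul, mul_assoc] at e1 e2 ⊢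
          rw [← e2, e1]
        have e5 := E.unif' (E.P_mul_right hpN t) (E.P_anti (by omega) (E.P_mul_right hq t))
          (hr' t) e4 (E.P_mul_right hs (ι d'))
        simp only [map_mul, mul_assoc] at e3 e5 ⊢
        rw [e3, e5]
      · intro h4 s hs t ht
        have e1 := h4 s hs t ht
        have e2 := h1.2 s trivial (ι p * t) ⟨ι p, hι p, t, ht, rfl⟩
        have e3 := h2.2 s trivial (ι p * t) ⟨ι p, hι p, t, ht, rfl⟩
        have e4 : (s * ι b) * (ι p * t) = (s * ι d') * (ι p * t) := by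
          simp only [map_mul, mul_assoc] at e1 e2 e3 ⊢
          rw [← e2, e1, e3]
        have e5 := E.lemmaD (t := ι q * t) (E.left _ (hι b) s) (E.left _ (hι d') s) e4
          (E.P_anti (by omega) (E.P_mul_right hq t)) (hr' t).symm
        simp only [map_mul, mul_assoc] at e5 ⊢
        exact e5

include hι in
theorem I2b (k l : ℕ) : Red (E.EE ι 0 (l + 1) ⊓ E.EE ι (k + 1) l) (E.EE ι k l) := by
  have base : ∀ {p q : S} (a : S), E.EE ι 0 (l + 1) p q → E.EE ι k l (p * a) (q * a) :=
    fun p h => E.EE_anti ι (Nat.zero_le _) le_rfl (E.EE_right ι hι p h)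
  refine Red.of ?_ ?_
  · intro p q a b c d h
    obtain ⟨h1, h2⟩ := h.rel
    exact both (E.EE_left ι hι _ h1.2) (E.EE_left ι hι _ h2.2)
  · intro p q hpq a b c d' h
    obtain ⟨h1, h2⟩ := h.rel
    exact both (Con.trans _ (base a hpq.1) (E.EE_left ι hι q h1.2))
      (Con.trans _ (base c hpq.1) (E.EE_left ι hι q h2.2))

end Dat

end Steps

end Pool.Agent.Q327.SN
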